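import Pool.Agent.Lib.MP_ab1175_al.Reduce

namespace Pool.Agent.Lib.MP_ab1175_al

open Subgroup

/-- The split extension of the additive group of `R` by `Γ` acting by left multiplication. -/
@[ext]
structure Aff {Γ R : Type} [Group Γ] [Ring R] (ρ : Γ →* R) where
  r : R
  g : Γ

namespace Aff
variable {Γ R : Type} [Group Γ] [Ring R] {ρ : Γ →* R}

instance : Mul (Aff ρ) := ⟨fun a b => ⟨a.r + ρ a.g * b.r, a.g * b.g⟩⟩
instance : One (Aff ρ) := ⟨⟨0, 1⟩⟩
instance : _root_.Inv (Aff ρ) := ⟨fun a => ⟨-(ρ a.g⁻¹ * a.r), a.g⁻¹⟩⟩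

@[simp] theorem mul_r (a b : Aff ρ) : (a * b).r = a.r + ρ a.g * b.r := rfl
@[simp] theorem mul_g (a b : Aff ρ) : (a * b).g = a.g * b.g := rfl
@[simp] theorem one_r : (1 : Aff ρ).r = 0 := rfl
@[simp] theorem one_g : (1 : Aff ρ).g = 1 := rfl
@[simp] theorem inv_r (a : Aff ρ) : (a⁻¹).r = -(ρ a.g⁻¹ * a.r) := rfl
@[simp] theorem inv_g (a : Aff ρ) : (a⁻¹).g = a.g⁻¹ := rfl

instance : Group (Aff ρ) := Group.ofLeftAxioms
  (fun a b c => by ext <;> simp [mul_add, mul_assoc, add_assoc])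
  (fun a => by ext <;> simp)
  (fun a => by ext <;> simp)

/-- functoriality. -/
def map {Γ' R' : Type} [Group Γ'] [Ring R'] {ρ' : Γ' →* R'} (f : Γ →* Γ') (φ : R →+ R')
    (h : ∀ g x, φ (ρ g * x) = ρ' (f g) * φ x) : Aff ρ →* Aff ρ' :=
  MonoidHom.mk' (fun a => ⟨φ a.r, f a.g⟩) (fun a b => by ext <;> simp [h])

/-- projection. -/
def proj : Aff ρ →* Γ := MonoidHom.mk' (fun a => a.g) (fun _ _ => rfl)

end Aff

section
variable {L : Set (FreeGroup ℕ)} {Γ R : Type} [Group Γ] [Ring R]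

theorem invar_of_aff {ρ : Γ →* R} (h : InVar L (Aff ρ)) : InVar L Γ :=
  h.of_surjective Aff.proj fun g => ⟨⟨0, g⟩, rfl⟩

/-- additive span of the image of the group. -/
def R0 (ρ : Γ →* R) : AddSubgroup R := AddSubgroup.closure (Set.range ρ)

theorem R0_left (ρ : Γ →* R) (g : Γ) {x : R} (hx : x ∈ R0 ρ) : ρ g * x ∈ R0 ρ := by
  have : R0 ρ ≤ (R0 ρ).comap (AddMonoidHom.mulLeft (ρ g)) := by
    refine (AddSubgroup.closure_le _).2 ?_
    rintro _ ⟨k, rfl⟩
    exact AddSubgroup.subset_closure ⟨g * k, map_mul _ _ _⟩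
  exact this hx

theorem R0_right (ρ : Γ →* R) (g : Γ) {x : R} (hx : x ∈ R0 ρ) : x * ρ g ∈ R0 ρ := by
  have : R0 ρ ≤ (R0 ρ).comap (AddMonoidHom.mulRight (ρ g)) := by
    refine (AddSubgroup.closure_le _).2 ?_
    rintro _ ⟨k, rfl⟩
    exact AddSubgroup.subset_closure ⟨k * g, map_mul _ _ _⟩
  exact this hx

theorem R0_mem (ρ : Γ →* R) (g : Γ) : ρ g ∈ R0 ρ := AddSubgroup.subset_closure ⟨g, rfl⟩

theorem R0_one (ρ : Γ →* R) : (1 : R) ∈ R0 ρ := map_one ρ ▸ R0_mem ρ 1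

theorem hopf_ring (hL : HopfVar L) {ρ : Γ →* R} (hρ : InVar L (Aff ρ)) (hfg : Group.FG Γ)
    (J : AddSubgroup R) (hJl : ∀ g, ∀ x ∈ J, ρ g * x ∈ J) (t : Γ) (hJr : ∀ x ∈ J, x * ρ t ∈ J)
    (x : R) (hx : x ∈ R0 ρ) (hxt : x * ρ t ∈ J) : x ∈ J := by
  obtain ⟨Xs, hXs, hXfin⟩ := Group.fg_iff.1 hfg
  let Gt : Subgroup (Aff ρ) :=
    { carrier := {a | a.r ∈ R0 ρ}
      one_mem' := zero_mem (R0 ρ)
      mul_mem' := fun ha hb => add_mem ha (R0_left ρ _ hb)
      inv_mem' := fun ha => neg_mem (R0_left ρ _ ha) }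
  let ι : Γ →* Aff ρ := MonoidHom.mk' (fun g => ⟨0, g⟩) (fun a b => by ext <;> simp)
  have hfgt : Group.FG Gt := by
    refine (Group.fg_iff_subgroup_fg _).2 ((Subgroup.fg_iff _).2
      ⟨ι '' Xs ∪ {⟨1, 1⟩}, ?_, (hXfin.image _).union (Set.finite_singleton _)⟩)
    apply le_antisymm
    · refine (Subgroup.closure_le _).2 ?_
      rintro _ (⟨g, -, rfl⟩ | rfl)
      · exact zero_mem (R0 ρ)
      · exact R0_one ρ
    · have h1 : ∀ g, ι g ∈ Subgroup.closure (ι '' Xs ∪ {⟨1, 1⟩}) := by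
        intro g
        have h1 : ι g ∈ (Subgroup.closure Xs).map ι := ⟨g, by rw [hXs]; trivial, rfl⟩
        rw [MonoidHom.map_closure] at h1
        exact Subgroup.closure_mono Set.subset_union_left h1
      have h2 : ∀ r ∈ R0 ρ, (⟨r, 1⟩ : Aff ρ) ∈ Subgroup.closure (ι '' Xs ∪ {⟨1, 1⟩}) := by
        intro r hr
        induction hr using AddSubgroup.closure_induction with
        | mem r hr =>
          obtain ⟨g, rfl⟩ := hr
          have e : (⟨ρ g, 1⟩ : Aff ρ) = ι g * ⟨1, 1⟩ * (ι g)⁻¹ := by ext <;> simp [ι]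
          rw [e]
          exact mul_mem (mul_mem (h1 g) (Subgroup.subset_closure (Or.inr rfl))) (inv_mem (h1 g))
        | zero => exact one_mem _
        | add a b _ _ ha hb =>
          have e : (⟨a + b, 1⟩ : Aff ρ) = ⟨a, 1⟩ * ⟨b, 1⟩ := by ext <;> simp
          rw [e]; exact mul_mem ha hb
        | neg a _ ha =>
          have e : (⟨-a, 1⟩ : Aff ρ) = (⟨a, 1⟩ : Aff ρ)⁻¹ := by ext <;> simp
          rw [e]; exact inv_mem ha
      intro a ha
      have e : a = ⟨a.r, 1⟩ * ι a.g := by ext <;> simp [ι]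
      rw [e]
      exact mul_mem (h2 _ ha) (h1 _)
  let A : Aff ρ →* Aff ρ := Aff.map (MonoidHom.id Γ) (AddMonoidHom.mulRight (ρ t))
    (fun g x => by simp [mul_assoc])
  let α : Gt →* Gt := (A.comp Gt.subtype).codRestrict Gt fun a => R0_right ρ t a.2
  have hα : Function.Surjective α := by
    intro a
    refine ⟨⟨⟨a.1.r * ρ t⁻¹, a.1.g⟩, R0_right ρ _ a.2⟩, Subtype.ext (Aff.ext ?_ rfl)⟩
    show a.1.r * ρ t⁻¹ * ρ t = a.1.r
    rw [mul_assoc, ← map_mul, inv_mul_cancel, map_one, mul_one]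
  let X : Subgroup (Aff ρ) :=
    { carrier := {a | a.r ∈ J ∧ a.g = 1}
      one_mem' := ⟨zero_mem J, rfl⟩
      mul_mem' := fun ha hb => ⟨add_mem ha.1 (hJl _ _ hb.1), by simp [ha.2, hb.2]⟩
      inv_mem' := fun ha => ⟨neg_mem (hJl _ _ ha.1), by simp [ha.2]⟩ }
  have hXn : X.Normal := by
    refine ⟨fun a ha b => ⟨?_, by simp [ha.2]⟩⟩
    have e : (b * a * b⁻¹).r = ρ b.g * a.r := by
      simp [ha.2, ← mul_assoc, ← map_mul]
    rw [e]
    exact hJl _ _ ha.1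
  exact (hopf_normal hL (hρ.subgroup Gt) hfgt α hα (X.subgroupOf Gt)
    (fun a ha => ⟨hJr _ ha.1, ha.2⟩) ⟨⟨x, 1⟩, hx⟩ ⟨hxt, rfl⟩).1

/-- `K` acts nilpotently. -/
def NilAct (ρ : Γ →* R) (K : Subgroup Γ) : Prop :=
  ∃ M : ℕ, ∀ l : List Γ, l.length = M → (∀ k ∈ l, k ∈ K) → (l.map fun k => ρ k - 1).prod = 0

theorem nilAct_unip (hL : HopfVar L) {ρ : Γ →* R} (hρ : InVar L (Aff ρ)) (hfg : Group.FG Γ)
    (hmax : NFG (⊥ : Subgroup Γ) ⊤) {N B : Subgroup Γ} (hN : PA N) [B.Normal] (hBN : B ≤ N)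
    (hc : ∀ b ∈ B, ∀ n ∈ N, b * n = n * b) :
    ∃ B₁ : Subgroup Γ, B₁.Normal ∧ B₁ ≤ B ∧ NilAct ρ B₁ ∧
      ∀ b ∈ B, IsNilpotent (ρ b - 1) → b ∈ B₁ := by
  have hcomm : ∀ a ∈ B, ∀ b ∈ B, Commute (ρ a) (ρ b) := fun a ha b hb =>
    Commute.map (hc a ha b (hBN hb)) ρ
  have hinv : ∀ g : Γ, ρ g * ρ g⁻¹ = 1 := fun g => by rw [← map_mul, mul_inv_cancel, map_one]
  have hinv' : ∀ g : Γ, ρ g⁻¹ * ρ g = 1 := fun g => by rw [← map_mul, inv_mul_cancel, map_one]
  let B₁ : Subgroup Γ :=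
    { carrier := {b | b ∈ B ∧ IsNilpotent (ρ b - 1)}
      one_mem' := ⟨one_mem _, by simp⟩
      mul_mem' := by
        rintro a b ⟨ha, ha'⟩ ⟨hb, hb'⟩
        refine ⟨mul_mem ha hb, ?_⟩
        have e : ρ (a * b) - 1 = ρ a * (ρ b - 1) + (ρ a - 1) := by rw [map_mul]; noncomm_ring
        have c1 : Commute (ρ a) (ρ b - 1) := (hcomm a ha b hb).sub_right (Commute.one_right _)
        rw [e]
        refine Commute.isNilpotent_add ?_ (c1.isNilpotent_mul_left hb') ha'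
        exact Commute.mul_left ((Commute.refl _).sub_right (Commute.one_right _))
          (c1.symm.sub_right (Commute.one_right _))
      inv_mem' := by
        rintro a ⟨ha, ha'⟩
        refine ⟨inv_mem ha, ?_⟩
        have e : ρ a⁻¹ - 1 = -(ρ a⁻¹ * (ρ a - 1)) := by rw [mul_sub, hinv']; noncomm_ring
        rw [e]
        exact (((hcomm _ (inv_mem ha) a ha).sub_right
          (Commute.one_right _)).isNilpotent_mul_left ha').neg }
  have hB₁n : B₁.Normal := by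
    refine ⟨fun b hb g => ⟨Normal.conj_mem inferInstance b hb.1 g, ?_⟩⟩
    obtain ⟨n, hn⟩ := hb.2
    refine ⟨n, ?_⟩
    have e : ρ (g * b * g⁻¹) - 1 = ρ g * (ρ b - 1) * ρ g⁻¹ := by
      rw [map_mul, map_mul, mul_sub, sub_mul, mul_one, hinv]
    have h2 : ∀ k : ℕ, (ρ g * (ρ b - 1) * ρ g⁻¹) ^ k = ρ g * (ρ b - 1) ^ k * ρ g⁻¹ := by
      intro k
      induction k with
      | zero => simp [hinv]
      | succ k ih =>
        rw [pow_succ, ih, pow_succ]
        calc ρ g * (ρ b - 1) ^ k * ρ g⁻¹ * (ρ g * (ρ b - 1) * ρ g⁻¹)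
            = ρ g * (ρ b - 1) ^ k * (ρ g⁻¹ * ρ g) * (ρ b - 1) * ρ g⁻¹ := by noncomm_ring
          _ = _ := by rw [hinv']; noncomm_ring
    rw [e, h2, hn]; simp
  refine ⟨B₁, hB₁n, fun b hb => hb.1, ?_, fun b hb h => ⟨hb, h⟩⟩
  obtain ⟨F, hF, hFB, hBF⟩ := hmax B₁ hB₁n bot_le le_top
  rw [bot_sup_eq] at hBF
  let J : Set Γ → AddSubgroup R := fun s =>
    AddSubgroup.closure {z | ∃ y ∈ s, ∃ g, z = ρ g * (ρ y - 1)}
  have J_le : ∀ s (W : AddSubgroup R), (∀ y ∈ s, ∀ g, ρ g * (ρ y - 1) ∈ W) → J s ≤ W := by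
    intro s W h
    refine (AddSubgroup.closure_le _).2 ?_
    rintro _ ⟨y, hy, g, rfl⟩
    exact h y hy g
  have J_left : ∀ s g, ∀ z ∈ J s, ρ g * z ∈ J s := by
    intro s g
    refine J_le s ((J s).comap (AddMonoidHom.mulLeft (ρ g))) fun y hy k => ?_
    refine AddSubgroup.subset_closure ⟨y, hy, g * k, ?_⟩
    simp [mul_assoc]
  have J_ext : ∀ s, ∀ y ∈ s, ρ y - 1 ∈ J s := fun s y hy =>
    AddSubgroup.subset_closure ⟨y, hy, 1, by simp⟩
  have hconj : ∀ g y, (ρ y - 1) * ρ g⁻¹ = ρ g⁻¹ * (ρ (g * y * g⁻¹) - 1) := by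
    intro g y
    rw [map_mul, map_mul, mul_sub, sub_mul, ← mul_assoc, ← mul_assoc, hinv', one_mul, one_mul,
      mul_one]
  have J_right : ∀ s g (W : AddSubgroup R), (∀ k, ∀ z ∈ W, ρ k * z ∈ W) →
      (∀ y ∈ s, ρ (g * y * g⁻¹) - 1 ∈ W) → ∀ z ∈ J s, z * ρ g⁻¹ ∈ W := by
    intro s g W hW hs
    refine J_le s (W.comap (AddMonoidHom.mulRight (ρ g⁻¹))) fun y hy k => ?_
    show ρ k * (ρ y - 1) * ρ g⁻¹ ∈ W
    rw [mul_assoc, hconj]
    exact hW _ _ (hW _ _ (hs y hy))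
  obtain ⟨F', hF', hFF, horb, hall⟩ := orbit_fg (fun g x : Γ => g * x * g⁻¹) (by simp)
    (fun g h x => by group) (fun s => {x | ρ x - 1 ∈ J s}) Set.univ (by simp) J_ext
    (fun s t h x hx => J_le s (J t) (fun y hy g => J_left t g _ (h hy)) hx)
    (fun s x hx => addClosure_fin (fun y z => ∃ g, z = ρ g * (ρ y - 1)) s _ hx)
    (fun g s x hx => by
      have h1 := J_right s g (J ((fun x => g * x * g⁻¹) '' s)) (J_left _)
        (fun y hy => J_ext _ _ (Set.mem_image_of_mem _ hy)) _ hx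
      have h2 := J_left _ g _ h1
      rwa [hconj, ← mul_assoc, hinv, one_mul] at h2)
    (fun t s _ hts x hx => by
      refine hopf_ring hL hρ hfg (J s) (J_left s) t⁻¹ (J_right s t (J s) (J_left s) hts) _
        (sub_mem (R0_mem ρ _) (R0_one ρ)) ?_
      rw [hconj]
      refine J_left s _ _ ?_
      have e : t * (t⁻¹ * x * t⁻¹⁻¹) * t⁻¹ = x := by group
      rw [e]
      exact J_ext s x hx)
    hN F hF (Set.subset_univ _) (fun g hg x hx => by
      have e : g * x * g⁻¹ = x := by rw [← hc x (hFB hx).1 g hg]; group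
      show ρ (g * x * g⁻¹) - 1 ∈ J F
      rw [e]
      exact J_ext F x hx)
  have hF'B : F' ⊆ B₁ := by
    intro y hy
    obtain ⟨g, x, hx, rfl⟩ := horb y hy
    exact hB₁n.conj_mem x (hFB hx) g
  have hBJ : ∀ b ∈ B₁, ρ b - 1 ∈ J F' := by
    let K : Subgroup Γ :=
      { carrier := {x | ρ x - 1 ∈ J F'}
        one_mem' := by simp
        mul_mem' := by
          intro a b ha hb
          have e : ρ (a * b) - 1 = ρ a * (ρ b - 1) + (ρ a - 1) := by rw [map_mul]; noncomm_ring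
          show ρ (a * b) - 1 ∈ J F'
          rw [e]
          exact add_mem (J_left _ _ _ hb) ha
        inv_mem' := by
          intro a ha
          have e : ρ a⁻¹ - 1 = -(ρ a⁻¹ * (ρ a - 1)) := by rw [mul_sub, hinv']; noncomm_ring
          show ρ a⁻¹ - 1 ∈ J F'
          rw [e]
          exact neg_mem (J_left _ _ _ ha) }
    have : normalClosure F ≤ K := by
      refine (Subgroup.closure_le _).2 fun x hx => ?_
      obtain ⟨n, hn, hnt⟩ := Group.mem_conjugatesOfSet_iff.1 hx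
      obtain ⟨k, rfl⟩ := isConj_iff.1 hnt
      exact hall k n (hFF hn)
    exact fun b hb => this (hBF hb)
  -- the commutative part
  let _ : CommGroup B := { (inferInstance : Group B) with
    mul_comm := fun a b => Subtype.ext (hc a a.2 b (hBN b.2)) }
  let e : MonoidAlgebra ℤ B →ₐ[ℤ] R := MonoidAlgebra.lift ℤ R B (ρ.comp B.subtype)
  have he : ∀ b : B, e (MonoidAlgebra.of ℤ B b) = ρ b := fun b => MonoidAlgebra.lift_of _ _
  let I : Ideal (MonoidAlgebra ℤ B) :=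
    Ideal.span ((fun b : B => MonoidAlgebra.of ℤ B b - 1) '' (B.subtype ⁻¹' F'))
  have hIfg : I.FG := Submodule.fg_span ((hF'.preimage B.subtype_injective.injOn).image _)
  have hIrad : I ≤ (RingHom.ker e).radical := by
    refine Ideal.span_le.2 ?_
    rintro _ ⟨b, hb, rfl⟩
    obtain ⟨n, hn⟩ := (hF'B hb).2
    refine ⟨n, ?_⟩
    rw [RingHom.mem_ker, map_pow, map_sub, he, map_one]
    exact hn
  obtain ⟨M, hM⟩ := Ideal.exists_pow_le_of_le_radical_of_fg hIrad hIfg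
  let Nn : ℕ → AddSubgroup R := fun j =>
    AddSubgroup.closure {z | ∃ x ∈ I ^ j, ∃ g, z = ρ g * e x}
  have hstep : ∀ j, ∀ b ∈ B₁, ∀ z ∈ Nn j, z * (ρ b - 1) ∈ Nn (j + 1) := by
    intro j b hb
    have : Nn j ≤ (Nn (j + 1)).comap (AddMonoidHom.mulRight (ρ b - 1)) := by
      refine (AddSubgroup.closure_le _).2 ?_
      rintro _ ⟨x, hx, g, rfl⟩
      show ρ g * e x * (ρ b - 1) ∈ Nn (j + 1)
      have h1 : e x * (ρ b - 1) = (ρ b - 1) * e x := by
        have h0 : ρ b - 1 = e (MonoidAlgebra.of ℤ B ⟨b, hb.1⟩ - 1) := by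
          rw [map_sub, he, map_one]
        rw [h0, ← map_mul, ← map_mul, mul_comm]
      rw [mul_assoc, h1, ← mul_assoc]
      refine J_le F' ((Nn (j + 1)).comap (AddMonoidHom.mulRight (e x))) (fun y hy k => ?_)
        (J_left _ g _ (hBJ b hb))
      refine AddSubgroup.subset_closure
        ⟨(MonoidAlgebra.of ℤ B ⟨y, (hF'B hy).1⟩ - 1) * x, ?_, k, ?_⟩
      · rw [pow_succ']
        exact Ideal.mul_mem_mul (Ideal.subset_span ⟨⟨y, (hF'B hy).1⟩, hy, rfl⟩) hx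
      · show ρ k * (ρ y - 1) * e x = _
        rw [map_mul, map_sub, he, map_one, ← mul_assoc]
    exact fun z hz => this hz
  have hall2 : ∀ l : List Γ, (∀ k ∈ l, k ∈ B₁) →
      (l.map fun k => ρ k - 1).prod ∈ Nn l.length := by
    intro l
    induction l using List.reverseRecOn with
    | nil => intro _; exact AddSubgroup.subset_closure ⟨1, by simp, 1, by simp⟩
    | append_singleton l a ih =>
      intro h
      rw [List.map_append, List.prod_append, List.length_append]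
      simp only [List.map_singleton, List.prod_singleton, List.length_singleton]
      exact hstep _ a (h a (by simp)) _ (ih fun k hk => h k (by simp [hk]))
  refine ⟨M, fun l hl hk => ?_⟩
  have h1 := hall2 l hk
  rw [hl] at h1
  have h2 : Nn M ≤ ⊥ := by
    refine (AddSubgroup.closure_le _).2 ?_
    rintro _ ⟨x, hx, g, rfl⟩
    have : e x = 0 := hM hx
    simp [this]
  exact h2 h1

end

end Pool.Agent.Lib.MP_ab1175_al
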