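import Pool.Agent.Lib.MP_ab1175_al.Defs

namespace Pool.Agent.Lib.MP_ab1175_al

open Subgroup

section Closure
variable {L : Set (FreeGroup ℕ)}

theorem InVar.of_injective {G H : Type} [Group G] [Group H] (f : G →* H)
    (hf : Function.Injective f) (h : InVar L H) : InVar L G := by
  intro w hw φ
  apply hf
  rw [map_one]
  exact h w hw (f.comp φ)

theorem InVar.of_surjective {G H : Type} [Group G] [Group H] (f : G →* H)
    (hf : Function.Surjective f) (h : InVar L G) : InVar L H := by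
  intro w hw φ
  choose g hg using fun i : ℕ => hf (φ (FreeGroup.of i))
  have e : φ = f.comp (FreeGroup.lift g) := by
    ext i
    simp [hg]
  rw [e, MonoidHom.comp_apply, h w hw, map_one]

theorem InVar.pi {ι : Type} {G : ι → Type} [∀ i, Group (G i)] (h : ∀ i, InVar L (G i)) :
    InVar L (∀ i, G i) := by
  intro w hw φ
  funext i
  exact h i w hw ((Pi.evalMonoidHom G i).comp φ)

theorem InVar.prod {G H : Type} [Group G] [Group H] (hG : InVar L G) (hH : InVar L H) :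
    InVar L (G × H) := by
  intro w hw φ
  exact Prod.ext (hG w hw ((MonoidHom.fst G H).comp φ)) (hH w hw ((MonoidHom.snd G H).comp φ))

theorem InVar.subgroup {G : Type} [Group G] (h : InVar L G) (H : Subgroup G) : InVar L H :=
  h.of_injective H.subtype H.subtype_injective

theorem InVar.quot {G : Type} [Group G] (h : InVar L G) (N : Subgroup G) [N.Normal] :
    InVar L (G ⧸ N) :=
  h.of_surjective (QuotientGroup.mk' N) (QuotientGroup.mk'_surjective N)

/-- All finitely generated groups of the variety are Hopfian. -/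
def HopfVar (L : Set (FreeGroup ℕ)) : Prop :=
  ∀ (G : Type) [Group G], InVar L G → Group.FG G → Hopfian G

/-- Consequence of the Hopf property for surjective endomorphisms and normal subgroups. -/
theorem hopf_normal (hL : HopfVar L) {G : Type} [Group G] (hG : InVar L G) (hfg : Group.FG G)
    (α : G →* G) (hα : Function.Surjective α) (X : Subgroup G) [X.Normal]
    (hX : ∀ x ∈ X, α x ∈ X) (g : G) (hg : α g ∈ X) : g ∈ X := by
  let β : G ⧸ X →* G ⧸ X := QuotientGroup.map X X α (fun x hx => hX x hx)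
  have hβ : Function.Surjective β := by
    intro y
    obtain ⟨y, rfl⟩ := QuotientGroup.mk'_surjective X y
    obtain ⟨x, rfl⟩ := hα y
    exact ⟨QuotientGroup.mk x, rfl⟩
  have hinj := hL (G ⧸ X) (hG.quot X) inferInstance β hβ
  have : β (QuotientGroup.mk g) = β 1 := by
    rw [map_one]
    exact (QuotientGroup.eq_one_iff _).2 hg
  exact (QuotientGroup.eq_one_iff _).1 (hinj this)

end Closure

section PA
variable {Γ : Type} [Group Γ]

/-- `PA N`: there is a series of normal subgroups from `N` to the whole group whose factors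
are finitely generated abelian groups. -/
inductive PA : Subgroup Γ → Prop
  | top : PA ⊤
  | step (M M₁ : Subgroup Γ) (Y : Finset Γ) (hM : PA M) (hn : M₁.Normal) (hle : M₁ ≤ M)
      (hc : ∀ a ∈ M, ∀ b ∈ M, a * b * a⁻¹ * b⁻¹ ∈ M₁) (hY : (Y : Set Γ) ⊆ M)
      (hgen : M ≤ M₁ ⊔ closure (Y : Set Γ)) : PA M₁

theorem PA.normal {N : Subgroup Γ} (h : PA N) : N.Normal := by
  cases h with
  | top => infer_instance
  | step M M₁ Y hM hn hle hc hY hgen => exact hn

theorem PA.ind {N : Subgroup Γ} (h : PA N) (Ψ : Subgroup Γ → Prop) (h0 : Ψ N)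
    (hstep : ∀ (H : Subgroup Γ) (t : Γ), N ≤ H → (∀ x ∈ H, t * x * t⁻¹ ∈ H) →
      (∀ x ∈ H, t⁻¹ * x * t ∈ H) → Ψ H → Ψ (H ⊔ closure {t})) : Ψ ⊤ := by
  classical
  induction h with
  | top => exact h0
  | step M M₁ Y hM hn hle hc hY hgen ih =>
    have key : ∀ Z : Finset Γ, (Z : Set Γ) ⊆ M → Ψ (M₁ ⊔ closure (Z : Set Γ)) := by
      intro Z
      induction Z using Finset.induction_on with
      | empty => intro _; simpa using h0
      | insert a Z ha ihZ =>
        intro hZ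
        have haM : a ∈ M := hZ (by simp)
        have hZM : (Z : Set Γ) ⊆ M := fun z hz => hZ (by simp [Finset.mem_coe.1 hz])
        have hsub : M₁ ⊔ closure (Z : Set Γ) ≤ M := sup_le hle ((closure_le _).2 hZM)
        have e : M₁ ⊔ closure ((insert a Z : Finset Γ) : Set Γ) =
            (M₁ ⊔ closure (Z : Set Γ)) ⊔ closure {a} := by
          rw [Finset.coe_insert, Set.insert_eq, Subgroup.closure_union, sup_assoc,
            sup_comm (Subgroup.closure {a})]
        rw [e]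
        refine hstep _ a le_sup_left ?_ ?_ (ihZ hZM)
        · intro x hx
          have h1 : a * x * a⁻¹ * x⁻¹ ∈ M₁ := hc a haM x (hsub hx)
          have e2 : a * x * a⁻¹ = (a * x * a⁻¹ * x⁻¹) * x := by group
          rw [e2]
          exact mul_mem (mem_sup_left h1) hx
        · intro x hx
          have h1 : a⁻¹ * x * a⁻¹⁻¹ * x⁻¹ ∈ M₁ := hc a⁻¹ (inv_mem haM) x (hsub hx)
          have e2 : a⁻¹ * x * a = (a⁻¹ * x * a⁻¹⁻¹ * x⁻¹) * x := by group
          rw [e2]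
          exact mul_mem (mem_sup_left h1) hx
    have e : M₁ ⊔ closure (Y : Set Γ) = M :=
      le_antisymm (sup_le hle ((closure_le _).2 hY)) hgen
    apply ih
    · rw [← e]; exact key Y hY
    · intro H t hH
      exact hstep H t (hle.trans hH)

theorem PA.map {Δ : Type} [Group Δ] (f : Γ →* Δ) (hf : Function.Surjective f) {N : Subgroup Γ}
    (h : PA N) : PA (N.map f) := by
  classical
  induction h with
  | top =>
    rw [← MonoidHom.range_eq_map, MonoidHom.range_eq_top_of_surjective f hf]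
    exact PA.top
  | step M M₁ Y hM hn hle hc hY hgen ih =>
    refine PA.step (M.map f) (M₁.map f) (Y.image f) ih (hn.map f hf) (map_mono hle) ?_ ?_ ?_
    · rintro _ ⟨a, ha, rfl⟩ _ ⟨b, hb, rfl⟩
      exact ⟨_, hc a ha b hb, by simp⟩
    · intro y hy
      obtain ⟨x, hx, rfl⟩ := Finset.mem_image.1 (Finset.mem_coe.1 hy)
      exact ⟨x, hY hx, rfl⟩
    · refine (map_mono hgen).trans ?_
      rw [Subgroup.map_sup, MonoidHom.map_closure, Finset.coe_image]

theorem PA.comap {Δ : Type} [Group Δ] (f : Γ →* Δ) (hf : Function.Surjective f) {N : Subgroup Δ}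
    (h : PA N) : PA (N.comap f) := by
  classical
  induction h with
  | top =>
    rw [comap_top]
    exact PA.top
  | step M M₁ Y hM hn hle hc hY hgen ih =>
    choose s hs using hf
    refine PA.step (M.comap f) (M₁.comap f) (Y.image s) ih (hn.comap f) (comap_mono hle) ?_ ?_ ?_
    · intro a ha b hb
      simpa using hc _ ha _ hb
    · intro y hy
      obtain ⟨x, hx, rfl⟩ := Finset.mem_image.1 (Finset.mem_coe.1 hy)
      show f (s x) ∈ M
      rw [hs]; exact hY hx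
    · have e : closure (Y : Set Δ) = (closure ((Y.image s : Finset Γ) : Set Γ)).map f := by
        rw [MonoidHom.map_closure, Finset.coe_image, Set.image_image]
        simp [hs]
      intro x hx
      have h1 : f x ∈ M₁ ⊔ closure (Y : Set Δ) := hgen hx
      rw [e] at h1
      obtain ⟨u, hu, v, hv, huv⟩ := (mem_sup_of_normal_left).1 h1
      obtain ⟨v, hv', rfl⟩ := hv
      have e2 : x = (x * v⁻¹) * v := by group
      rw [e2]
      refine mul_mem (mem_sup_left ?_) (mem_sup_right hv')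
      show f (x * v⁻¹) ∈ M₁
      rw [map_mul, map_inv, ← huv]
      simpa using hu

end PA

section Orbit
variable {Ω X : Type} [Group Ω]

/-- Orbits under a group with a polycyclic series are finitely generated for a finitary closure
operator with the `Rep` property. -/
theorem orbit_fg (act : Ω → X → X) (h1 : ∀ x, act 1 x = x)
    (hmul : ∀ g h x, act (g * h) x = act g (act h x))
    (cl : Set X → Set X) (Y : Set X) (hY : ∀ g, ∀ x ∈ Y, act g x ∈ Y)
    (ext : ∀ s, s ⊆ cl s) (idem : ∀ s t, s ⊆ cl t → cl s ⊆ cl t)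
    (fin : ∀ s, ∀ x ∈ cl s, ∃ s0 ⊆ s, s0.Finite ∧ x ∈ cl s0)
    (eqv : ∀ g s, ∀ x ∈ cl s, act g x ∈ cl (act g '' s))
    (rep : ∀ t, ∀ s ⊆ Y, (∀ x ∈ s, act t x ∈ cl s) → ∀ x ∈ s, act t⁻¹ x ∈ cl s)
    {N : Subgroup Ω} (hN : PA N) (F : Set X) (hF : F.Finite) (hFY : F ⊆ Y)
    (hNF : ∀ g ∈ N, ∀ x ∈ F, act g x ∈ cl F) :
    ∃ F' : Set X, F'.Finite ∧ F ⊆ F' ∧ (∀ y ∈ F', ∃ g, ∃ x ∈ F, y = act g x) ∧
      ∀ g, ∀ x ∈ F', act g x ∈ cl F' := by
  have mono : ∀ s t, s ⊆ t → cl s ⊆ cl t := fun s t h => idem s t (h.trans (ext t))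
  have stab : ∀ g s, (∀ x ∈ s, act g x ∈ cl s) → ∀ x ∈ cl s, act g x ∈ cl s := by
    intro g s hs x hx
    refine idem _ _ ?_ (eqv g s x hx)
    rintro _ ⟨y, hy, rfl⟩
    exact hs y hy
  have main := hN.ind (fun H => ∃ F' : Set X, F'.Finite ∧ F ⊆ F' ∧
      (∀ y ∈ F', ∃ g, ∃ x ∈ F, y = act g x) ∧ ∀ g ∈ H, ∀ x ∈ F', act g x ∈ cl F')
    ⟨F, hF, le_rfl, fun y hy => ⟨1, y, hy, (h1 y).symm⟩, hNF⟩ ?_
  · obtain ⟨F', a, b, c, d⟩ := main
    exact ⟨F', a, b, c, fun g => d g trivial⟩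
  rintro H t - hc1 hc2 ⟨F1, hF1, hFF1, horb, hH⟩
  have hF1Y : F1 ⊆ Y := by
    intro y hy
    obtain ⟨g, x, hx, rfl⟩ := horb y hy
    exact hY g x (hFY hx)
  let S : ℕ → Set X := fun n => {y | ∃ i : ℕ, 1 ≤ i ∧ i ≤ n ∧ ∃ x ∈ F1, y = act (t⁻¹ ^ i) x}
  let s : Set X := {y | ∃ i : ℕ, 1 ≤ i ∧ ∃ x ∈ F1, y = act (t⁻¹ ^ i) x}
  have hsY : s ⊆ Y := by
    rintro _ ⟨i, -, x, hx, rfl⟩
    exact hY _ x (hF1Y hx)
  have hSmono : ∀ m n, m ≤ n → S m ⊆ S n := by
    rintro m n hmn _ ⟨i, hi, hi', x, hx, rfl⟩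
    exact ⟨i, hi, hi'.trans hmn, x, hx, rfl⟩
  have hs1 : ∀ x ∈ F1, x ∈ cl s := by
    intro x hx
    have := rep t⁻¹ s hsY (by
      rintro _ ⟨i, hi, x, hx, rfl⟩
      apply ext
      refine ⟨i + 1, by omega, x, hx, ?_⟩
      rw [← hmul, pow_succ']) (act (t⁻¹ ^ 1) x) ⟨1, le_rfl, x, hx, rfl⟩
    rw [← hmul] at this
    simpa [h1] using this
  have hs2 : ∀ x ∈ F1, ∃ n, x ∈ cl (S n) := by
    intro x hx
    obtain ⟨s0, hs0, hfin, hx0⟩ := fin s x (hs1 x hx)
    have : ∃ n, s0 ⊆ S n := by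
      refine Set.Finite.induction_on_subset s0 hfin ⟨0, by simp⟩ ?_
      rintro a u ha - - ⟨n, hn⟩
      obtain ⟨i, hi, x, hx, rfl⟩ := hs0 ha
      refine ⟨max n i, Set.insert_subset ⟨i, hi, le_max_right _ _, x, hx, rfl⟩ ?_⟩
      exact hn.trans (hSmono _ _ (le_max_left _ _))
    obtain ⟨n, hn⟩ := this
    exact ⟨n, mono _ _ hn hx0⟩
  have hs3 : ∃ n, ∀ x ∈ F1, x ∈ cl (S n) := by
    refine Set.Finite.induction_on_subset F1 hF1 ⟨0, by simp⟩ ?_
    rintro a u ha - - ⟨n, hn⟩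
    obtain ⟨m, hm⟩ := hs2 a ha
    refine ⟨max n m, ?_⟩
    rintro x (rfl | hx)
    · exact mono _ _ (hSmono _ _ (le_max_right _ _)) hm
    · exact mono _ _ (hSmono _ _ (le_max_left _ _)) (hn x hx)
  obtain ⟨n, hn⟩ := hs3
  let F2 : Set X := {y | ∃ i : ℕ, i ≤ n ∧ ∃ x ∈ F1, y = act (t ^ i) x}
  have hF2fin : F2.Finite := by
    have : F2 ⊆ ⋃ i ∈ Set.Iic n, act (t ^ i) '' F1 := by
      rintro _ ⟨i, hi, x, hx, rfl⟩
      simp only [Set.mem_iUnion]
      exact ⟨i, hi, x, hx, rfl⟩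
    exact ((Set.finite_Iic n).biUnion fun i _ => hF1.image _).subset this
  have hF12 : F1 ⊆ F2 := fun x hx => ⟨0, Nat.zero_le _, x, hx, by rw [pow_zero, h1]⟩
  have hF2Y : F2 ⊆ Y := by
    rintro _ ⟨i, -, x, hx, rfl⟩
    exact hY _ x (hF1Y hx)
  have ht : ∀ x ∈ F2, act t x ∈ cl F2 := by
    rintro _ ⟨i, hi, x, hx, rfl⟩
    rw [← hmul, ← pow_succ']
    rcases hi.lt_or_eq with hi | rfl
    · exact ext _ ⟨i + 1, hi, x, hx, rfl⟩
    · refine mono _ _ ?_ (eqv (t ^ (i + 1)) _ x (hn x hx))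
      rintro _ ⟨_, ⟨j, hj, hj', z, hz, rfl⟩, rfl⟩
      refine ⟨i + 1 - j, by omega, z, hz, ?_⟩
      rw [← hmul]
      congr 1
      rw [inv_pow, pow_sub _ (by omega : j ≤ i + 1)]
  have ht' : ∀ x ∈ F2, act t⁻¹ x ∈ cl F2 := rep t F2 hF2Y ht
  have hconj : ∀ i : ℕ, ∀ g ∈ H, (t ^ i)⁻¹ * g * t ^ i ∈ H := by
    intro i
    induction i with
    | zero => intro g hg; simpa using hg
    | succ i ih =>
      intro g hg
      have := hc2 _ (ih g hg)
      have e : (t ^ (i + 1))⁻¹ * g * t ^ (i + 1) = t⁻¹ * ((t ^ i)⁻¹ * g * t ^ i) * t := by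
        rw [pow_succ]; group
      rwa [e]
  have hH2 : ∀ g ∈ H, ∀ x ∈ F2, act g x ∈ cl F2 := by
    rintro g hg _ ⟨i, hi, x, hx, rfl⟩
    have e : act g (act (t ^ i) x) = act (t ^ i) (act ((t ^ i)⁻¹ * g * t ^ i) x) := by
      rw [← hmul, ← hmul]; congr 1; group
    rw [e]
    refine mono _ _ ?_ (eqv (t ^ i) _ _ (hH _ (hconj i g hg) x hx))
    rintro _ ⟨z, hz, rfl⟩
    exact ⟨i, hi, z, hz, rfl⟩
  let K : Subgroup Ω :=
    { carrier := {g | (∀ x ∈ F2, act g x ∈ cl F2) ∧ ∀ x ∈ F2, act g⁻¹ x ∈ cl F2}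
      one_mem' := ⟨fun x hx => by rw [h1]; exact ext _ hx,
        fun x hx => by rw [inv_one, h1]; exact ext _ hx⟩
      mul_mem' := by
        rintro a b ⟨ha, ha'⟩ ⟨hb, hb'⟩
        refine ⟨fun x hx => ?_, fun x hx => ?_⟩
        · rw [hmul]; exact stab a F2 ha _ (hb x hx)
        · rw [mul_inv_rev, hmul]; exact stab _ F2 hb' _ (ha' x hx)
      inv_mem' := by
        rintro a ⟨ha, ha'⟩
        exact ⟨ha', by simpa using ha⟩ }
  have hK : H ⊔ closure {t} ≤ K := by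
    refine sup_le (fun g hg => ⟨hH2 g hg, hH2 _ (inv_mem hg)⟩) ((closure_le _).2 ?_)
    rintro _ rfl
    exact ⟨ht, ht'⟩
  refine ⟨F2, hF2fin, hFF1.trans hF12, ?_, fun g hg => (hK hg).1⟩
  rintro _ ⟨i, -, x, hx, rfl⟩
  obtain ⟨g, z, hz, rfl⟩ := horb x hx
  exact ⟨t ^ i * g, z, hz, (hmul _ _ _).symm⟩

end Orbit

end Pool.Agent.Lib.MP_ab1175_al
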