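import Pool.Agent.Lib.MP_ab1175_al.Basic

namespace Pool.Agent.Lib.MP_ab1175_al

open AddMonoidAlgebra
open scoped Pointwise

/-- Laurent polynomials over the integers. -/
abbrev Lam : Type := AddMonoidAlgebra ℤ ℤ

/-- The group ring of the additive group of `Lam`. -/
abbrev LL : Type := AddMonoidAlgebra ℤ Lam

noncomputable def TT (j : ℤ) : Lam := single j 1

noncomputable def XX (m : Lam) : LL := single m 1

theorem TT_add (a b : ℤ) : TT (a + b) = TT a * TT b := by
  rw [TT, TT, TT, single_mul_single, one_mul]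

theorem TT_zero : TT 0 = 1 := rfl

theorem TT_pow (a : ℤ) (n : ℕ) : TT a ^ n = TT (n * a) := by
  rw [TT, TT, single_pow, one_pow, nsmul_eq_mul]

theorem XX_add (a b : Lam) : XX (a + b) = XX a * XX b := by
  simp [XX, single_mul_single]

theorem XX_zero : XX 0 = 1 := rfl

theorem XX_pow (a : Lam) (n : ℕ) : XX a ^ n = XX (n * a) := by
  simp [XX, single_pow]

noncomputable def dil (k : ℤ) : Lam →+* Lam := mapDomainRingHom ℤ (AddMonoidHom.mulLeft k)

theorem dil_TT (k j : ℤ) : dil k (TT j) = TT (k * j) := by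
  exact mapDomain_single

theorem dil_one (m : Lam) : dil 1 m = m := by
  have : dil 1 = RingHom.id Lam := by
    refine AddMonoidAlgebra.ringHom_ext (fun r => by simp) (fun j => ?_)
    exact (dil_TT 1 j).trans (by rw [one_mul]; rfl)
  rw [this]; rfl

noncomputable def subs (g : Lam) (k : ℤ) : LL →+* LL :=
  mapDomainRingHom ℤ ((AddMonoidHom.mulLeft g).comp (dil k).toAddMonoidHom)

theorem subs_XX (g : Lam) (k : ℤ) (m : Lam) : subs g k (XX m) = XX (g * dil k m) := by
  simp [subs, XX, mapDomain_single]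

theorem apply_mapDomain {E E' D : Type} [AddCommGroup E] [AddCommGroup E'] [CommRing D]
    (π : AddMonoidAlgebra ℤ E' →+* D) (f : E →+ E') (c : AddMonoidAlgebra ℤ E) :
    π (mapDomainRingHom ℤ f c) =
      ∑ m ∈ c.coeff.support, ((c.coeff m : ℤ) : D) * π (single (f m) 1) := by
  conv_lhs => rw [← sum_coeff_single c]
  rw [Finsupp.sum, map_sum, map_sum]
  refine Finset.sum_congr rfl fun m _ => ?_
  have : (mapDomainRingHom ℤ f) (single m (c.coeff m)) = (c.coeff m) • single (f m) (1 : ℤ) := by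
    simp [mapDomain_single]
  rw [this, map_zsmul, zsmul_eq_mul]

theorem dedekind {E D : Type} [CommRing D] [IsDomain D] (γ : E → D) (hγ : Function.Injective γ)
    (s : Finset E) (a : E → D) (h : ∀ n : ℕ, ∑ m ∈ s, a m * γ m ^ n = 0) : ∀ m ∈ s, a m = 0 := by
  let χ : E → (Multiplicative ℕ →* D) := fun m => powersHom D (γ m)
  have hχ : Function.Injective χ := fun a b hab => hγ ((powersHom D).injective hab)
  have hli := (linearIndependent_monoidHom (Multiplicative ℕ) D).comp χ hχ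
  refine linearIndependent_iff'.1 hli s a ?_
  funext n
  simpa [χ] using h n.toAdd

/-- the additive group of exponents that become trivial modulo an ideal. -/
def KK (p : Ideal LL) : AddSubgroup Lam where
  carrier := {m | XX m - 1 ∈ p}
  zero_mem' := by simp [XX_zero]
  add_mem' := by
    intro a b ha hb
    have : XX (a + b) - 1 = XX a * (XX b - 1) + (XX a - 1) := by rw [XX_add]; ring
    show XX (a + b) - 1 ∈ p
    rw [this]
    exact add_mem (p.mul_mem_left _ hb) ha
  neg_mem' := by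
    intro a ha
    have h1 : XX (-a) * XX a = 1 := by rw [← XX_add, neg_add_cancel, XX_zero]
    have : XX (-a) - 1 = -(XX (-a) * (XX a - 1)) := by rw [mul_sub, h1]; ring
    show XX (-a) - 1 ∈ p
    rw [this]
    exact neg_mem (p.mul_mem_left _ ha)

theorem KK_sub {p : Ideal LL} {a b : Lam} (h : XX a - XX b ∈ p) : a - b ∈ KK p := by
  have h1 : XX (-b) * XX b = 1 := by rw [← XX_add, neg_add_cancel, XX_zero]
  have : XX (a - b) - 1 = XX (-b) * (XX a - XX b) := by
    rw [mul_sub, h1, ← XX_add]; congr 2; ring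
  show XX (a - b) - 1 ∈ p
  rw [this]
  exact p.mul_mem_left _ h

/-- span of the positive powers of `T`. -/
noncomputable def Lp : AddSubgroup Lam := AddSubgroup.closure (Set.range fun i : ℕ => TT (i + 1))

theorem Lp_mul {a b : Lam} (ha : a ∈ Lp) (hb : b ∈ Lp) : a * b ∈ Lp := by
  induction ha using AddSubgroup.closure_induction with
  | mem a ha =>
    obtain ⟨i, rfl⟩ := ha
    induction hb using AddSubgroup.closure_induction with
    | mem b hb =>
      obtain ⟨j, rfl⟩ := hb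
      refine AddSubgroup.subset_closure ⟨i + j + 1, ?_⟩
      simp only
      rw [← TT_add]; congr 1; push_cast; ring
    | zero => simp
    | add x y _ _ hx hy => rw [mul_add]; exact add_mem hx hy
    | neg x _ hx => rw [mul_neg]; exact neg_mem hx
  | zero => simp
  | add x y _ _ hx hy => rw [add_mul]; exact add_mem hx hy
  | neg x _ hx => rw [neg_mul]; exact neg_mem hx

theorem TT_mem_Lp (n : ℕ) (hn : 0 < n) : TT n ∈ Lp := by
  obtain ⟨i, rfl⟩ := Nat.exists_eq_succ_of_ne_zero hn.ne'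
  exact AddSubgroup.subset_closure ⟨i, by simp⟩

section
variable (𝔄 : Ideal LL) (hsub : ∀ (g : Lam) (k : ℕ), ∀ c ∈ 𝔄, subs g k c ∈ 𝔄)
  (hF : ∀ p : Ideal LL, p.IsPrime → 𝔄 ≤ p → (∀ i : ℕ, TT (i + 1) ∈ KK p) → (1 : Lam) ∈ KK p)
include hsub hF

theorem ca_window : ∃ L0 : ℕ, ∀ p : Ideal LL, p.IsPrime → 𝔄 ≤ p → ∀ m : Lam,
    (∀ i < L0, m * TT ((i : ℤ) + 1) ∈ KK p) → m ∈ KK p := by
  let J : Ideal LL := Ideal.span (Set.range fun i : ℕ => XX (TT (i + 1)) - 1)
  have h1 : XX 1 - 1 ∈ (𝔄 ⊔ J).radical := by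
    rw [Ideal.radical_eq_sInf, Submodule.mem_sInf]
    rintro p ⟨hp, hpp⟩
    exact hF p hpp (le_sup_left.trans hp) fun i =>
      (le_sup_right.trans hp) (Ideal.subset_span ⟨i, rfl⟩)
  obtain ⟨e, he⟩ := h1
  obtain ⟨a, ha, b, hb, hab⟩ := Submodule.mem_sup.1 he
  have h2 : ∃ L0 : ℕ, b ∈ Ideal.span ((fun i : ℕ => XX (TT (i + 1)) - 1) '' Set.Iio L0) := by
    clear hab
    induction hb using Submodule.span_induction with
    | mem x hx =>
      obtain ⟨i, rfl⟩ := hx
      exact ⟨i + 1, Ideal.subset_span ⟨i, Nat.lt_succ_self i, rfl⟩⟩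
    | zero => exact ⟨0, zero_mem _⟩
    | add x y _ _ hx hy =>
      obtain ⟨n, hn⟩ := hx
      obtain ⟨m, hm⟩ := hy
      exact ⟨max n m, add_mem
        (Ideal.span_mono (Set.image_mono (Set.Iio_subset_Iio (le_max_left _ _))) hn)
        (Ideal.span_mono (Set.image_mono (Set.Iio_subset_Iio (le_max_right _ _))) hm)⟩
    | smul r x _ hx =>
      obtain ⟨n, hn⟩ := hx
      exact ⟨n, Ideal.mul_mem_left _ r hn⟩
  obtain ⟨L0, hL0⟩ := h2
  refine ⟨L0, fun p hp hAp m hm => ?_⟩
  have h3 : subs m 1 b ∈ p := by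
    refine (Ideal.span_le.2 ?_ : _ ≤ p.comap (subs m 1)) hL0
    rintro _ ⟨i, hi, rfl⟩
    show subs m 1 _ ∈ p
    rw [map_sub, map_one, subs_XX, dil_one]
    exact hm i hi
  have h4 : subs m 1 a ∈ p := hAp (hsub m 1 a ha)
  have h5 : subs m 1 ((XX 1 - 1) ^ e) ∈ p := by rw [← hab, map_add]; exact add_mem h4 h3
  rw [map_pow, map_sub, map_one, subs_XX, dil_one, mul_one] at h5
  exact hp.mem_of_pow_mem e h5

theorem ca_product : ∃ s : Finset Lam, (∀ r ∈ s, r ≠ 0) ∧ ∀ p : Ideal LL, p.IsPrime → 𝔄 ≤ p →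
    ∀ (g : Lam) (k : ℕ), ∃ r ∈ s, g * dil k r ∈ KK p := by
  classical
  let S : Submonoid LL := Submonoid.closure {x | ∃ m : Lam, m ≠ 0 ∧ x = XX m - 1}
  have hnd : ¬ Disjoint (𝔄 : Set LL) S := by
    intro hd
    obtain ⟨p, hp, hAp, hpS⟩ := Ideal.exists_le_prime_disjoint 𝔄 S hd
    have hK : ∀ m, m ∈ KK p → m = 0 := by
      intro m hm
      by_contra h
      exact Set.disjoint_left.1 hpS hm (Submonoid.subset_closure ⟨m, h, rfl⟩)
    let π := Ideal.Quotient.mk p
    have hinj : Function.Injective fun m => π (XX m) := by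
      intro a b hab
      exact sub_eq_zero.1 (hK _ (KK_sub (Ideal.Quotient.eq.1 hab)))
    have hcoef : ∀ c ∈ 𝔄, ∀ m ∈ c.coeff.support, ((c.coeff m : ℤ) : LL ⧸ p) = 0 := by
      intro c hc
      refine dedekind _ hinj _ _ fun n => ?_
      have h1 : π (subs n ((1 : ℕ) : ℤ) c) = 0 :=
        Ideal.Quotient.eq_zero_iff_mem.2 (hAp (hsub n 1 c hc))
      rw [subs, apply_mapDomain] at h1
      rw [← h1]
      refine Finset.sum_congr rfl fun m _ => ?_
      rw [← map_pow, XX_pow]
      congr 2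
      show XX _ = XX ((n : Lam) * dil ((1 : ℕ) : ℤ) m)
      rw [Nat.cast_one, dil_one]
    let pr : Lam →+ Lam := (singleAddHom (0 : ℤ)).comp
      ((Finsupp.applyAddHom (0 : ℤ)).comp (coeffAddEquiv (R := ℤ) (M := ℤ)).toAddMonoidHom)
    have hpr : ∀ m, pr m = single 0 (m.coeff 0) := fun m => rfl
    let π' : LL →+* LL ⧸ p := π.comp (mapDomainRingHom ℤ pr)
    have hπ' : ∀ m, π' (XX m) = π (XX (pr m)) := by
      intro m
      simp [π', XX, mapDomain_single]
    have h2 := hF (RingHom.ker π') (RingHom.ker_isPrime π') (fun c hc => by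
      show π (mapDomainRingHom ℤ pr c) = 0
      rw [apply_mapDomain]
      exact Finset.sum_eq_zero fun m hm => by rw [hcoef c hc m hm, zero_mul]) (fun i => by
      show π' (XX _ - 1) = 0
      have : pr (TT (i + 1)) = 0 := by
        rw [hpr, TT, coeff_single, Finsupp.single_eq_of_ne' (by omega), single_zero]
      rw [map_sub, hπ', this, XX_zero, map_one, map_one, sub_self])
    have h3 : π' (XX 1 - 1) = 0 := h2
    have h4 : pr 1 = 1 := by
      rw [hpr, one_def, coeff_single, Finsupp.single_eq_same]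
    rw [map_sub, hπ', h4, map_one, ← map_one π, ← map_sub] at h3
    exact one_ne_zero (hK 1 (Ideal.Quotient.eq_zero_iff_mem.1 h3))
  obtain ⟨x, hxA, hxS⟩ := Set.not_disjoint_iff.1 hnd
  have h5 : ∃ s : Finset Lam, (∀ r ∈ s, r ≠ 0) ∧ ∀ p : Ideal LL, p.IsPrime →
      ∀ (g : Lam) (k : ℕ), subs g k x ∈ p → ∃ r ∈ s, g * dil k r ∈ KK p := by
    clear hxA
    induction hxS using Submonoid.closure_induction with
    | mem x hx =>
      obtain ⟨m, hm, rfl⟩ := hx
      refine ⟨{m}, by simpa using hm, fun p _ g k h => ⟨m, by simp, ?_⟩⟩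
      rwa [map_sub, map_one, subs_XX] at h
    | one =>
      refine ⟨∅, by simp, fun p hp g k h => ?_⟩
      rw [map_one] at h
      exact (hp.ne_top ((Ideal.eq_top_iff_one _).2 h)).elim
    | mul x y _ _ hx hy =>
      obtain ⟨s, hs, hs'⟩ := hx
      obtain ⟨t, ht, ht'⟩ := hy
      refine ⟨s ∪ t, fun r hr => (Finset.mem_union.1 hr).elim (hs r) (ht r), fun p hp g k h => ?_⟩
      rw [map_mul] at h
      rcases hp.mem_or_mem h with h | h
      · obtain ⟨r, hr, hr'⟩ := hs' p hp g k h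
        exact ⟨r, Finset.mem_union_left _ hr, hr'⟩
      · obtain ⟨r, hr, hr'⟩ := ht' p hp g k h
        exact ⟨r, Finset.mem_union_right _ hr, hr'⟩
  obtain ⟨s, hs, hs'⟩ := h5
  exact ⟨s, hs, fun p hp hAp g k => hs' p hp g k (hAp (hsub g k x hxA))⟩

theorem ca_ann : ∃ (c : ℕ) (h : Lam), 0 < c ∧ h ∈ Lp ∧ ∀ p : Ideal LL, p.IsPrime → 𝔄 ≤ p →
    ∀ g : Lam, (c : Lam) * (g * (1 - h)) ∈ KK p := by
  classical
  obtain ⟨s, hs, hs'⟩ := ca_product 𝔄 hsub hF
  let 𝔞 : Ideal Lam :=
    { carrier := {m | ∀ p : Ideal LL, p.IsPrime → 𝔄 ≤ p → ∀ g : Lam, g * m ∈ KK p}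
      zero_mem' := fun p _ _ g => by rw [mul_zero]; exact zero_mem _
      add_mem' := fun ha hb p hp hA g => by
        rw [mul_add]; exact add_mem (ha p hp hA g) (hb p hp hA g)
      smul_mem' := fun r m hm p hp hA g => by
        rw [smul_eq_mul, ← mul_assoc]; exact hm p hp hA _ }
  let f : Lam := (s.card.factorial : Lam) * ∏ r ∈ s, r
  have hf0 : f ≠ 0 :=
    mul_ne_zero (by
      rw [natCast_def]
      exact single_ne_zero.2 (by exact_mod_cast s.card.factorial_ne_zero))
      (Finset.prod_ne_zero_iff.2 hs)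
  have hf : ∀ k : ℕ, dil k f ∈ 𝔞 := by
    intro k p hp hA g
    let H : Lam → AddSubgroup Lam := fun r => (KK p).comap (AddMonoidHom.mulRight (dil k r))
    have hcov : ⋃ r ∈ s, (fun _ => (0 : Lam)) r +ᵥ (H r : Set Lam) = Set.univ := by
      refine Set.eq_univ_of_forall fun g => ?_
      obtain ⟨r, hr, hr'⟩ := hs' p hp hA g k
      simp only [Set.mem_iUnion, zero_vadd]
      exact ⟨r, hr, hr'⟩
    obtain ⟨r, hr, hfin, hidx⟩ := AddSubgroup.exists_index_le_card_of_leftCoset_cover hcov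
    obtain ⟨d, hd⟩ := Nat.dvd_factorial (Nat.pos_of_ne_zero hfin.index_ne_zero) hidx
    have h1 : (H r).index • (d • (g * dil k (∏ x ∈ s.erase r, x))) ∈ H r :=
      AddSubgroup.nsmul_index_mem _ _
    have h2 : (H r).index • (d • (g * dil k (∏ x ∈ s.erase r, x))) * dil k r ∈ KK p := h1
    convert h2 using 1
    simp only [f]
    rw [← Finset.mul_prod_erase s _ hr, hd, map_mul, map_mul, map_natCast]
    simp only [nsmul_eq_mul]
    push_cast
    ring
  let S : Submonoid Lam :=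
    { carrier := {x | ∃ (c : ℤ) (h : Lam), c ≠ 0 ∧ h ∈ Lp ∧ x = c * (1 - h)}
      one_mem' := ⟨1, 0, one_ne_zero, zero_mem _, by simp⟩
      mul_mem' := by
        rintro _ _ ⟨c, h, hc, hh, rfl⟩ ⟨c', h', hc', hh', rfl⟩
        refine ⟨c * c', h + h' - h * h', mul_ne_zero hc hc',
          sub_mem (add_mem hh hh') (Lp_mul hh hh'), ?_⟩
        push_cast; ring }
  have hnd : ¬ Disjoint (𝔞 : Set Lam) S := by
    intro hd
    obtain ⟨q, hq, haq, hqS⟩ := Ideal.exists_le_prime_disjoint 𝔞 S hd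
    let π := Ideal.Quotient.mk q
    have hlt : ∀ a b : ℤ, a < b → TT a - TT b ∉ q := by
      intro a b hab h
      obtain ⟨n, hn⟩ := Int.eq_ofNat_of_zero_le (by omega : 0 ≤ b - a)
      have h1 : (1 : Lam) - TT n = TT (-a) * (TT a - TT b) := by
        rw [mul_sub, ← TT_add, ← TT_add, neg_add_cancel, TT_zero, ← hn]; congr 2; ring
      refine Set.disjoint_left.1 hqS (q.mul_mem_left (TT (-a)) h) ⟨1, TT n, one_ne_zero,
        TT_mem_Lp n (by omega), ?_⟩
      rw [← h1]; simp
    have hinj : Function.Injective fun j => π (TT j) := by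
      intro a b hab
      have h1 : TT a - TT b ∈ q := Ideal.Quotient.eq.1 hab
      rcases lt_trichotomy a b with h | h | h
      · exact (hlt a b h h1).elim
      · exact h
      · exact (hlt b a h (by simpa using neg_mem h1)).elim
    have hcoef : ∀ m ∈ f.coeff.support, ((f.coeff m : ℤ) : Lam ⧸ q) = 0 := by
      refine dedekind _ hinj _ _ fun n => ?_
      have h1 : π (dil n f) = 0 := Ideal.Quotient.eq_zero_iff_mem.2 (haq (hf n))
      rw [dil, apply_mapDomain] at h1
      rw [← h1]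
      refine Finset.sum_congr rfl fun m _ => ?_
      rw [← map_pow, TT_pow]
      rfl
    obtain ⟨m, hm⟩ := Finsupp.support_nonempty_iff.2 (fun h => hf0 (coeff_eq_zero.1 h))
    have h2 : ((f.coeff m : ℤ) : Lam) ∈ q := by
      rw [← Ideal.Quotient.eq_zero_iff_mem, map_intCast]
      exact hcoef m hm
    exact Set.disjoint_left.1 hqS h2
      ⟨f.coeff m, 0, Finsupp.mem_support_iff.1 hm, zero_mem _, by simp⟩
  obtain ⟨x, hxa, c, h, hc, hh, rfl⟩ := Set.not_disjoint_iff.1 hnd
  refine ⟨c.natAbs, h, Int.natAbs_pos.2 hc, hh, fun p hp hA g => ?_⟩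
  have h1 := hxa p hp hA (c.sign * g)
  convert h1 using 1
  have : ((c.natAbs : ℕ) : Lam) = (c.sign : Lam) * (c : Lam) := by
    rw [← Int.cast_mul, Int.sign_mul_self_eq_natAbs, Int.cast_natCast]
  rw [this]; ring

theorem ca_main : ∃ h ∈ Lp, XX (1 - h) - 1 ∈ 𝔄.radical := by
  classical
  obtain ⟨L0, hL0⟩ := ca_window 𝔄 hsub hF
  obtain ⟨c, h, hc, hh, hann⟩ := ca_ann 𝔄 hsub hF
  let B0 := c ^ L0
  let N := B0.factorial
  refine ⟨h + TT N - h * TT N, sub_mem (add_mem hh (TT_mem_Lp N B0.factorial_pos))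
    (Lp_mul hh (TT_mem_Lp N B0.factorial_pos)), ?_⟩
  rw [Ideal.radical_eq_sInf, Submodule.mem_sInf]
  rintro p ⟨hA, hp⟩
  show _ ∈ KK p
  let π := Ideal.Quotient.mk p
  let R : Finset (LL ⧸ p) := Polynomial.nthRootsFinset c 1
  have hR : R.card ≤ c := by
    simp only [R]
    rw [Polynomial.nthRootsFinset_def]
    exact (Multiset.toFinset_card_le _).trans (Polynomial.card_nthRoots _ _)
  have hw : ∀ j : ℕ, π (XX (TT j * (1 - h))) ∈ R := by
    intro j
    rw [Polynomial.mem_nthRootsFinset hc, ← map_pow, XX_pow, ← map_one π]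
    exact Ideal.Quotient.eq.2 (hann p hp hA (TT j))
  let W : Fin (B0 + 1) → (Fin L0 → R) := fun j i => ⟨_, hw (N + j + i + 1)⟩
  have hcard : Fintype.card (Fin L0 → R) < Fintype.card (Fin (B0 + 1)) := by
    rw [Fintype.card_fun, Fintype.card_coe, Fintype.card_fin, Fintype.card_fin]
    exact Nat.lt_succ_of_le (Nat.pow_le_pow_left hR _)
  obtain ⟨j, j', hjj, hW⟩ : ∃ j j' : Fin (B0 + 1), j < j' ∧ W j = W j' := by
    obtain ⟨j, j', hne, hW⟩ := Fintype.exists_ne_map_eq_of_card_lt W hcard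
    rcases lt_or_gt_of_ne hne with h | h
    · exact ⟨j, j', h, hW⟩
    · exact ⟨j', j, h, hW.symm⟩
  obtain ⟨d, hd⟩ : ∃ d : ℕ, (j' : ℕ) = j + d := Nat.exists_eq_add_of_le hjj.le
  have hd0 : 0 < d := by have : (j : ℕ) < j' := hjj; omega
  have hdB : d ≤ B0 := by have := j'.2; omega
  obtain ⟨q, hq⟩ : d ∣ N := Nat.dvd_factorial hd0 hdB
  let m : Lam := (1 - h) * (1 - TT d)
  have h1 : ∀ i < L0, m * TT ((N + j + i + 1 : ℕ) : ℤ) ∈ KK p := by
    intro i hi
    have h2 := congrArg Subtype.val (congrFun hW ⟨i, hi⟩)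
    have h3 := KK_sub (Ideal.Quotient.eq.1 h2)
    convert h3 using 1
    have e : TT ((N + j' + i + 1 : ℕ) : ℤ) = TT ((N + j + i + 1 : ℕ) : ℤ) * TT d := by
      rw [← TT_add, hd]; congr 1; push_cast; ring
    simp only [m]
    rw [e]; ring
  have h4 : ∀ r s : ℕ, N + j + 1 ≤ s + r → s ≤ N + j + L0 → m * TT s ∈ KK p := by
    intro r
    induction r with
    | zero =>
      intro s hs hs'
      have := h1 (s - (N + j + 1)) (by omega)
      rwa [show N + j + (s - (N + j + 1)) + 1 = s by omega] at this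
    | succ r ih =>
      intro s hs hs'
      by_cases h5 : N + j + 1 ≤ s + r
      · exact ih s h5 hs'
      · refine hL0 p hp hA _ fun i hi => ?_
        have := ih (s + i + 1) (by omega) (by omega)
        rw [mul_assoc, ← TT_add]
        convert this using 3
        push_cast; ring
  have h6 : ∑ k ∈ Finset.range q, m * TT d ^ k ∈ KK p := by
    refine AddSubgroup.sum_mem _ fun k hk => ?_
    have hk' : k * d ≤ N := by
      rw [hq, mul_comm]
      exact Nat.mul_le_mul_left _ (Finset.mem_range.1 hk).le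
    have := h4 (N + j + 1) (k * d) (by omega) (by omega)
    rw [TT_pow]
    exact_mod_cast this
  convert h6 using 1
  rw [← Finset.mul_sum]
  have h7 : (1 - TT d) * ∑ k ∈ Finset.range q, TT d ^ k = 1 - TT N := by
    rw [mul_neg_geom_sum, TT_pow, hq]; congr 2; push_cast; ring
  simp only [m]
  rw [mul_assoc, h7]; ring

end

end Pool.Agent.Lib.MP_ab1175_al
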