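import Mathlib

namespace Pool.Agent.Lib.MP_ab1175_al

/-- The group `G` lies in the variety defined by the set of laws `L`. -/
def InVar (L : Set (FreeGroup ℕ)) (G : Type) [Group G] : Prop :=
  ∀ w ∈ L, ∀ φ : FreeGroup ℕ →* G, φ w = 1

/-- The variety defined by `L` is soluble: its groups have bounded derived length. -/
def SolubleVar (L : Set (FreeGroup ℕ)) : Prop :=
  ∃ d : ℕ, ∀ (G : Type) [Group G], InVar L G → derivedSeries G d = ⊥

/-- Every surjective endomorphism of `G` is injective. -/
def Hopfian (G : Type) [Group G] : Prop :=
  ∀ f : G →* G, Function.Surjective f → Function.Injective f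

/-- The finitely generated groups of the variety defined by `L`. -/
def FGMember (L : Set (FreeGroup ℕ)) : Type 1 :=
  {G : GrpCat.{0} // InVar L G ∧ Group.FG G}

/-- Isomorphism classes of finitely generated groups of the variety defined by `L`. -/
def IsoClass (L : Set (FreeGroup ℕ)) : Type 1 :=
  Quot (fun G H : FGMember L => Nonempty (G.1 ≃* H.1))

/-- The variety has fewer than `2 ^ ℵ₀` isomorphism classes of finitely generated groups. -/
def SmallVar (L : Set (FreeGroup ℕ)) : Prop :=
  Cardinal.mk (IsoClass L) < Cardinal.continuum

end Pool.Agent.Lib.MP_ab1175_al
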