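import Pool.Agent.Lib.MP_ab1175_al.Basic

namespace Pool.Agent.Lib.MP_ab1175_al

open Subgroup

theorem fg_of_le_closure {M : Type} [CommGroup M] (F : Set M) (hF : F.Finite) (V : Subgroup M)
    (hV : V ≤ Subgroup.closure F) : ∃ F' : Set M, F'.Finite ∧ Subgroup.closure F' = V := by
  have h1 : (Subgroup.closure F).FG := (Subgroup.fg_iff _).2 ⟨F, rfl, hF⟩
  rw [Subgroup.fg_iff_add_fg] at h1
  have h2 : (AddSubgroup.toIntSubmodule (Subgroup.closure F).toAddSubgroup).FG := by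
    rw [Submodule.fg_iff_addSubgroup_fg]; exact h1
  have h3 : (AddSubgroup.toIntSubmodule V.toAddSubgroup).FG :=
    Submodule.FG.of_le h2 (fun x hx => hV hx)
  rw [Submodule.fg_iff_addSubgroup_fg] at h3
  have h4 : V.FG := (Subgroup.fg_iff_add_fg V).2 h3
  obtain ⟨S, hS, hfin⟩ := (Subgroup.fg_iff _).1 h4
  exact ⟨S, hfin, hS⟩

/-- The same for a commutative subgroup of an arbitrary group. -/
theorem fg_of_le_closure' {G : Type} [Group G] (F : Set G) (hF : F.Finite)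
    (hc : ∀ a ∈ F, ∀ b ∈ F, a * b = b * a) (V : Subgroup G)
    (hV : V ≤ Subgroup.closure F) : ∃ F' : Set G, F'.Finite ∧ Subgroup.closure F' = V := by
  let E := Subgroup.closure F
  have hcomm : ∀ a b : E, a * b = b * a := by
    rintro ⟨a, ha⟩ ⟨b, hb⟩
    apply Subtype.ext
    show a * b = b * a
    have h1 : ∀ x ∈ F, ∀ y ∈ E, x * y = y * x := by
      intro x hx y hy
      have : E ≤ Subgroup.centralizer {x} := by
        refine (Subgroup.closure_le _).2 fun z hz => ?_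
        simp only [SetLike.mem_coe, Subgroup.mem_centralizer_iff, Set.mem_singleton_iff]
        rintro _ rfl
        exact hc _ hx _ hz
      exact (Subgroup.mem_centralizer_iff.1 (this hy)) x rfl
    have : E ≤ Subgroup.centralizer {b} := by
      refine (Subgroup.closure_le _).2 fun z hz => ?_
      simp only [SetLike.mem_coe, Subgroup.mem_centralizer_iff, Set.mem_singleton_iff]
      rintro _ rfl
      exact (h1 _ hz _ hb).symm
    exact ((Subgroup.mem_centralizer_iff.1 (this ha)) b rfl).symm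
  let _ : CommGroup E := { (inferInstance : Group E) with mul_comm := hcomm }
  have hF' : (E.subtype ⁻¹' F).Finite := hF.preimage E.subtype_injective.injOn
  have htop : Subgroup.closure (E.subtype ⁻¹' F) = ⊤ := Subgroup.closure_closure_coe_preimage
  obtain ⟨F', hfin, hcl⟩ := fg_of_le_closure (E.subtype ⁻¹' F) hF' (V.subgroupOf E)
    (by rw [htop]; exact le_top)
  refine ⟨E.subtype '' F', hfin.image _, ?_⟩
  rw [← MonoidHom.map_closure, hcl, Subgroup.subgroupOf_map_subtype, inf_eq_left.2 hV]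

section Hall
variable {Γ M : Type} [Group Γ] [CommGroup M] (φ : Γ →* MulAut M)

/-- `U` is invariant under `H`. -/
def Inv (H : Subgroup Γ) (U : Subgroup M) : Prop := ∀ h ∈ H, ∀ u ∈ U, φ h u ∈ U

/-- ascending chain condition for `H`-invariant subgroups of `M₀`. -/
def Acc (H : Subgroup Γ) (M₀ : Subgroup M) : Prop :=
  ∀ f : ℕ → Subgroup M, Monotone f → (∀ n, f n ≤ M₀) → (∀ n, Inv φ H (f n)) →
    ∃ n, ∀ m, n ≤ m → f m ≤ f n

theorem acc_of_fg (H : Subgroup Γ) (F : Set M) (hF : F.Finite) :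
    Acc φ H (Subgroup.closure F) := by
  intro f hf hle _
  obtain ⟨F', hfin, hcl⟩ := fg_of_le_closure F hF (⨆ n, f n) (iSup_le hle)
  have hmem : ∀ x ∈ F', ∃ n, x ∈ f n := by
    intro x hx
    have : x ∈ ⨆ n, f n := hcl ▸ Subgroup.subset_closure hx
    exact (Subgroup.mem_iSup_of_directed hf.directed_le).1 this
  have : ∃ n, F' ⊆ f n := by
    refine Set.Finite.induction_on_subset F' hfin ⟨0, by simp⟩ ?_
    rintro a u ha - - ⟨n, hn⟩
    obtain ⟨m, hm⟩ := hmem a ha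
    exact ⟨max n m, Set.insert_subset (hf (le_max_right _ _) hm)
      (hn.trans (hf (le_max_left _ _)))⟩
  obtain ⟨n, hn⟩ := this
  refine ⟨n, fun m _ => (le_iSup f m).trans ?_⟩
  rw [← hcl]
  exact (Subgroup.closure_le _).2 hn

theorem hall_step (H : Subgroup Γ) (t : Γ) (hc1 : ∀ x ∈ H, t * x * t⁻¹ ∈ H)
    (hc2 : ∀ x ∈ H, t⁻¹ * x * t ∈ H) (M₀ : Subgroup M) (hinv : Inv φ H M₀) (hacc : Acc φ H M₀) :
    ∃ M₁ : Subgroup M, M₀ ≤ M₁ ∧ Inv φ (H ⊔ Subgroup.closure {t}) M₁ ∧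
      Acc φ (H ⊔ Subgroup.closure {t}) M₁ := by
  have hconj : ∀ i : ℕ, ∀ g ∈ H, (t ^ i)⁻¹ * g * t ^ i ∈ H := by
    intro i
    induction i with
    | zero => intro g hg; simpa using hg
    | succ i ih =>
      intro g hg
      have := hc2 _ (ih g hg)
      have e : (t ^ (i + 1))⁻¹ * g * t ^ (i + 1) = t⁻¹ * ((t ^ i)⁻¹ * g * t ^ i) * t := by
        rw [pow_succ]; group
      rwa [e]
  have hconj' : ∀ i : ℕ, ∀ g ∈ H, t ^ i * g * (t ^ i)⁻¹ ∈ H := by
    intro i
    induction i with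
    | zero => intro g hg; simpa using hg
    | succ i ih =>
      intro g hg
      have := hc1 _ (ih g hg)
      have e : t ^ (i + 1) * g * (t ^ (i + 1))⁻¹ = t * (t ^ i * g * (t ^ i)⁻¹) * t⁻¹ := by
        rw [pow_succ']; group
      rwa [e]
  have hφ : ∀ a b : Γ, ∀ x : M, φ (a * b) x = φ a (φ b x) := by
    intro a b x; rw [map_mul]; rfl
  have hφ1 : ∀ x : M, φ 1 x = x := by intro x; rw [map_one]; rfl
  -- the filtration
  let Fl : ℕ → Subgroup M := fun n =>
    Nat.rec ⊥ (fun k U => U ⊔ M₀.map (φ (t ^ k)).toMonoidHom) n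
  have Fl0 : Fl 0 = ⊥ := rfl
  have FlS : ∀ n, Fl (n + 1) = Fl n ⊔ M₀.map (φ (t ^ n)).toMonoidHom := fun n => rfl
  have Flmono : Monotone Fl := monotone_nat_of_le_succ fun n => by rw [FlS]; exact le_sup_left
  have Flmem : ∀ n x, x ∈ Fl (n + 1) ↔ ∃ u ∈ Fl n, ∃ m ∈ M₀, u * φ (t ^ n) m = x := by
    intro n x
    rw [FlS, Subgroup.mem_sup]
    constructor
    · rintro ⟨u, hu, _, ⟨m, hm, rfl⟩, rfl⟩
      exact ⟨u, hu, m, hm, rfl⟩
    · rintro ⟨u, hu, m, hm, rfl⟩
      exact ⟨u, hu, _, ⟨m, hm, rfl⟩, rfl⟩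
  have FlH : ∀ n, Inv φ H (Fl n) := by
    intro n
    induction n with
    | zero => intro h _ u hu; rw [Fl0, Subgroup.mem_bot] at hu ⊢; rw [hu, map_one]
    | succ n ih =>
      intro h hh x hx
      obtain ⟨u, hu, m, hm, rfl⟩ := (Flmem n x).1 hx
      refine (Flmem n _).2 ⟨φ h u, ih h hh u hu, φ ((t ^ n)⁻¹ * h * t ^ n) m,
        hinv _ (hconj n h hh) m hm, ?_⟩
      rw [map_mul (φ h), ← hφ, ← hφ]
      congr 3; group
  have Flt : ∀ n, ∀ x ∈ Fl n, φ t x ∈ Fl (n + 1) := by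
    intro n
    induction n with
    | zero => intro u hu; rw [Fl0, Subgroup.mem_bot] at hu; rw [hu, map_one]; exact one_mem _
    | succ n ih =>
      intro x hx
      obtain ⟨u, hu, m, hm, rfl⟩ := (Flmem n x).1 hx
      refine (Flmem (n + 1) _).2 ⟨φ t u, ih u hu, m, hm, ?_⟩
      rw [map_mul (φ t), ← hφ, pow_succ']
  have Fltk : ∀ k n, ∀ x ∈ Fl n, φ (t ^ k) x ∈ Fl (n + k) := by
    intro k
    induction k with
    | zero => intro n x hx; rw [pow_zero, hφ1]; exact hx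
    | succ k ih =>
      intro n x hx
      rw [pow_succ', hφ]
      exact Flt _ _ (ih n x hx)
  let M₁ : Subgroup M :=
    { carrier := {x | ∃ k n : ℕ, φ (t ^ k) x ∈ Fl n}
      one_mem' := ⟨0, 0, by rw [map_one]; exact one_mem _⟩
      mul_mem' := by
        rintro a b ⟨k, n, ha⟩ ⟨k', n', hb⟩
        refine ⟨k + k', n + n' + (k + k'), ?_⟩
        rw [map_mul]
        refine mul_mem ?_ ?_
        · rw [add_comm k k', pow_add, hφ]
          exact Flmono (by omega) (Fltk k' n _ ha)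
        · rw [pow_add, hφ]
          exact Flmono (by omega) (Fltk k n' _ hb)
      inv_mem' := by
        rintro a ⟨k, n, ha⟩
        exact ⟨k, n, by rw [map_inv]; exact inv_mem ha⟩ }
  have invgen : ∀ U : Subgroup M, Inv φ H U → (∀ x ∈ U, φ t x ∈ U) → (∀ x ∈ U, φ t⁻¹ x ∈ U) →
      Inv φ (H ⊔ Subgroup.closure {t}) U := by
    intro U h1 h2 h3
    let K : Subgroup Γ :=
      { carrier := {g | (∀ x ∈ U, φ g x ∈ U) ∧ ∀ x ∈ U, φ g⁻¹ x ∈ U}
        one_mem' := ⟨fun x hx => by rw [hφ1]; exact hx, fun x hx => by rw [inv_one, hφ1]; exact hx⟩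
        mul_mem' := by
          rintro a b ⟨ha, ha'⟩ ⟨hb, hb'⟩
          refine ⟨fun x hx => ?_, fun x hx => ?_⟩
          · rw [hφ]; exact ha _ (hb x hx)
          · rw [mul_inv_rev, hφ]; exact hb' _ (ha' x hx)
        inv_mem' := by
          rintro a ⟨ha, ha'⟩
          exact ⟨ha', by simpa using ha⟩ }
    have hK : H ⊔ Subgroup.closure {t} ≤ K := by
      refine sup_le (fun g hg => ⟨h1 g hg, h1 _ (inv_mem hg)⟩) ((Subgroup.closure_le _).2 ?_)
      rintro _ rfl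
      exact ⟨h2, h3⟩
    exact fun g hg => (hK hg).1
  refine ⟨M₁, ?_, invgen M₁ ?_ ?_ ?_, ?_⟩
  · intro x hx
    exact ⟨0, 1, (Flmem 0 _).2 ⟨1, one_mem _, x, hx, by simp⟩⟩
  · rintro h hh x ⟨k, n, hx⟩
    refine ⟨k, n, ?_⟩
    have e : φ (t ^ k) (φ h x) = φ (t ^ k * h * (t ^ k)⁻¹) (φ (t ^ k) x) := by
      rw [← hφ, ← hφ]; congr 2; group
    rw [e]
    exact FlH n _ (hconj' k h hh) _ hx
  · rintro x ⟨k, n, hx⟩
    refine ⟨k, n + 1, ?_⟩
    rw [← hφ, ← pow_succ, pow_succ', hφ]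
    exact Flt n _ hx
  · rintro x ⟨k, n, hx⟩
    refine ⟨k + 1, n, ?_⟩
    rw [← hφ, pow_succ, mul_assoc, mul_inv_cancel, mul_one]
    exact hx
  · intro f hf hle hfi
    have htm : t ∈ H ⊔ Subgroup.closure {t} :=
      mem_sup_right (Subgroup.subset_closure rfl)
    have hft : ∀ j (k : ℕ), ∀ x ∈ f j, φ (t ^ k) x ∈ f j :=
      fun j k x hx => hfi j _ (pow_mem htm k) x hx
    have hft' : ∀ j (k : ℕ), ∀ x, φ (t ^ k) x ∈ f j → x ∈ f j := by
      intro j k x hx
      have := hfi j _ (inv_mem (pow_mem htm k)) _ hx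
      rwa [← hφ, inv_mul_cancel, hφ1] at this
    let Ld : ℕ → ℕ → Subgroup M := fun n j =>
      M₀ ⊓ (f j ⊔ Fl n).comap (φ (t ^ n)).toMonoidHom
    have Lmem : ∀ n j x, x ∈ Ld n j ↔ x ∈ M₀ ∧ ∃ u ∈ f j, ∃ v ∈ Fl n, u * v = φ (t ^ n) x := by
      intro n j x
      show x ∈ M₀ ∧ φ (t ^ n) x ∈ f j ⊔ Fl n ↔ _
      rw [Subgroup.mem_sup]
    have Lj : ∀ n, Monotone (Ld n) := fun n i j hij =>
      inf_le_inf_left _ (Subgroup.comap_mono (sup_le_sup_right (hf hij) _))
    have Ln : ∀ j, Monotone fun n => Ld n j := by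
      intro j
      refine monotone_nat_of_le_succ fun n x hx => ?_
      obtain ⟨h0, u, hu, v, hv, huv⟩ := (Lmem n j x).1 hx
      refine (Lmem (n + 1) j x).2 ⟨h0, φ t u, hfi j t htm u hu, φ t v, Flt n v hv, ?_⟩
      rw [← map_mul, huv, ← hφ, pow_succ']
    have Linv : ∀ n j, Inv φ H (Ld n j) := by
      intro n j h hh x hx
      obtain ⟨h0, u, hu, v, hv, huv⟩ := (Lmem n j x).1 hx
      have hh' := hconj' n h hh
      refine (Lmem n j _).2 ⟨hinv h hh x h0, φ (t ^ n * h * (t ^ n)⁻¹) u,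
        hfi j _ (mem_sup_left hh') u hu, φ (t ^ n * h * (t ^ n)⁻¹) v, FlH n _ hh' v hv, ?_⟩
      rw [← map_mul, huv, ← hφ, ← hφ]; congr 2; group
    obtain ⟨n0, hn0⟩ := hacc (fun n => Ld n n)
      (monotone_nat_of_le_succ fun n => (Lj n (Nat.le_succ n)).trans (Ln (n + 1) (Nat.le_succ n)))
      (fun n => inf_le_left) (fun n => Linv n n)
    choose J hJ using fun n => hacc (Ld n) (Lj n) (fun j => inf_le_left) (Linv n)
    let j0 := max n0 ((Finset.range n0).sup J)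
    have hstab : ∀ n j, j0 ≤ j → Ld n j ≤ Ld n j0 := by
      intro n j hj
      by_cases hn : n < n0
      · have h1 : J n ≤ j0 :=
          (Finset.le_sup (f := J) (Finset.mem_range.2 hn)).trans (le_max_right _ _)
        exact (hJ n j (h1.trans hj)).trans (Lj n h1)
      · push Not at hn
        have h1 : Ld n j ≤ Ld (max n j) (max n j) :=
          (Lj n (le_max_right _ _)).trans (Ln _ (le_max_left _ _))
        have h2 := hn0 (max n j) (hn.trans (le_max_left _ _))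
        exact (h1.trans h2).trans ((Ln n0 hn).trans (Lj n (le_max_left _ _)))
    refine ⟨j0, fun j hj => ?_⟩
    have key : ∀ n, ∀ x ∈ f j, x ∈ Fl n → x ∈ f j0 := by
      intro n
      induction n with
      | zero => intro x _ hx; rw [Fl0, Subgroup.mem_bot] at hx; rw [hx]; exact one_mem _
      | succ n ih =>
        intro x hxj hx
        obtain ⟨u, hu, m, hm, rfl⟩ := (Flmem n x).1 hx
        have h1 : m ∈ Ld n j := (Lmem n j m).2 ⟨hm, _, hxj, u⁻¹, inv_mem hu, by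
          rw [mul_comm u, mul_assoc, mul_inv_cancel, mul_one]⟩
        obtain ⟨-, u', hu', v, hv, huv⟩ := (Lmem n j0 m).1 (hstab n j hj h1)
        have e : u * φ (t ^ n) m = u' * (u * v) := by rw [← huv, mul_left_comm]
        have h2 : u * v ∈ f j := by
          have e2 : u * v = u'⁻¹ * (u * φ (t ^ n) m) := by rw [e]; group
          rw [e2]
          exact mul_mem (inv_mem (hf hj hu')) hxj
        rw [e]
        exact mul_mem hu' (ih _ h2 (mul_mem hu hv))
    intro x hx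
    obtain ⟨k, n, hxk⟩ := hle j hx
    exact hft' j0 k x (key n _ (hft j k x hx) hxk)

/-- P. Hall's theorem: a finitely generated module over a polycyclic group is Noetherian. -/
theorem hall {N : Subgroup Γ} (hN : PA N) (htriv : ∀ h ∈ N, ∀ x : M, φ h x = x) (F : Set M)
    (hF : F.Finite) (hgen : ∀ U : Subgroup M, Inv φ ⊤ U → F ⊆ U → U = ⊤)
    (U : Subgroup M) :
    ∃ S : Set M, S.Finite ∧ S ⊆ U ∧ ∀ V : Subgroup M, Inv φ ⊤ V → S ⊆ V → U ≤ V := by
  classical
  have main := hN.ind (fun H => ∃ M₀ : Subgroup M, F ⊆ M₀ ∧ Inv φ H M₀ ∧ Acc φ H M₀)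
    ⟨Subgroup.closure F, Subgroup.subset_closure,
      fun h hh u hu => by rw [htriv h hh]; exact hu, acc_of_fg φ N F hF⟩ (by
      rintro H t - h1 h2 ⟨M₀, hF0, hi, ha⟩
      obtain ⟨M₁, a, b, c⟩ := hall_step φ H t h1 h2 M₀ hi ha
      exact ⟨M₁, hF0.trans a, b, c⟩)
  obtain ⟨M₀, hF0, hi, ha⟩ := main
  obtain rfl := hgen M₀ hi hF0
  -- invariant closure
  let ic : Set M → Subgroup M := fun S => sInf {V | Inv φ ⊤ V ∧ S ⊆ V}
  have ic_inv : ∀ S, Inv φ ⊤ (ic S) := by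
    intro S h hh u hu
    rw [Subgroup.mem_sInf] at hu ⊢
    exact fun V hV => hV.1 h hh u (hu V hV)
  have ic_sub : ∀ S : Set M, S ⊆ (ic S : Set M) := by
    intro S x hx
    rw [SetLike.mem_coe, Subgroup.mem_sInf]
    exact fun V hV => hV.2 hx
  have ic_le : ∀ (S : Set M) (V : Subgroup M), Inv φ ⊤ V → S ⊆ V → ic S ≤ V :=
    fun S V h1 h2 => sInf_le ⟨h1, h2⟩
  clear_value ic
  by_contra hcon
  push Not at hcon
  have hnext : ∀ S : Finset M, (S : Set M) ⊆ U → ∃ x ∈ U, x ∉ ic S := by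
    intro S hS
    obtain ⟨V, hV, hSV, hUV⟩ := hcon S S.finite_toSet hS
    by_contra h
    push Not at h
    exact hUV fun x hx => ic_le _ V hV hSV (h x hx)
  choose! nx hnx hnx' using hnext
  obtain ⟨sq, sq0, sqS⟩ : ∃ sq : ℕ → Finset M, sq 0 = ∅ ∧
      ∀ n, sq (n + 1) = insert (nx (sq n)) (sq n) :=
    ⟨fun n => Nat.rec ∅ (fun _ S => insert (nx S) S) n, rfl, fun n => rfl⟩
  have sqU : ∀ n, ((sq n : Finset M) : Set M) ⊆ U := by
    intro n
    induction n with
    | zero => simp [sq0]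
    | succ n ih =>
      rw [sqS, Finset.coe_insert]
      exact Set.insert_subset (hnx _ ih) ih
  obtain ⟨n, hn⟩ := ha (fun n => ic (sq n))
    (monotone_nat_of_le_succ fun n => ic_le _ _ (ic_inv _) (by
      refine Set.Subset.trans ?_ (ic_sub _)
      rw [sqS, Finset.coe_insert]
      exact Set.subset_insert _ _)) (fun n => le_top) (fun n => ic_inv _)
  refine hnx' _ (sqU n) (hn (n + 1) (Nat.le_succ n) (ic_sub _ ?_))
  rw [sqS, Finset.coe_insert]
  exact Set.mem_insert _ _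

end Hall

end Pool.Agent.Lib.MP_ab1175_al
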