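import Pool.Agent.Lib.MP_ab1175_al.Hall

namespace Pool.Agent.Lib.MP_ab1175_al

open Subgroup
open scoped commutatorElement

section
variable {Γ : Type} [Group Γ]

theorem lift_fin {Δ : Type} [Group Δ] (π : Γ →* Δ) (X : Subgroup Γ) (F : Set Δ) (hF : F.Finite)
    (hX : F ⊆ X.map π) : ∃ F' : Set Γ, F'.Finite ∧ F' ⊆ X ∧ π '' F' = F := by
  have h : ∀ y : F, ∃ x ∈ X, π x = y := fun y => hX y.2
  choose s hs hs' using h
  have := hF.to_subtype
  refine ⟨Set.range s, Set.finite_range s, ?_, ?_⟩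
  · rintro _ ⟨y, rfl⟩; exact hs y
  · ext y
    constructor
    · rintro ⟨_, ⟨y, rfl⟩, rfl⟩
      rw [hs']; exact y.2
    · intro hy
      exact ⟨s ⟨y, hy⟩, ⟨_, rfl⟩, hs' _⟩

theorem le_sup_of_map_le (V : Subgroup Γ) [V.Normal] {X W : Subgroup Γ}
    (h : X.map (QuotientGroup.mk' V) ≤ W.map (QuotientGroup.mk' V)) : X ≤ V ⊔ W := by
  rw [Subgroup.map_le_map_iff, QuotientGroup.ker_mk'] at h
  rwa [sup_comm]

theorem fg_mod (M₁ : Subgroup Γ) [M₁.Normal] (Y : Set Γ) (hY : Y.Finite)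
    (hc : ∀ a ∈ Y, ∀ b ∈ Y, a * b * a⁻¹ * b⁻¹ ∈ M₁) (X : Subgroup Γ)
    (hX : X ≤ M₁ ⊔ Subgroup.closure Y) :
    ∃ F : Set Γ, F.Finite ∧ F ⊆ X ∧ X ≤ M₁ ⊔ Subgroup.closure F := by
  let π := QuotientGroup.mk' M₁
  have h1 : X.map π ≤ Subgroup.closure (π '' Y) := by
    refine (map_mono hX).trans ?_
    rw [Subgroup.map_sup, MonoidHom.map_closure]
    refine sup_le ?_ le_rfl
    rintro _ ⟨x, hx, rfl⟩
    have : π x = 1 := (QuotientGroup.eq_one_iff _).2 hx
    rw [this]; exact one_mem _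
  obtain ⟨F', hF', hcl⟩ := fg_of_le_closure' (π '' Y) (hY.image _) (by
    rintro _ ⟨a, ha, rfl⟩ _ ⟨b, hb, rfl⟩
    have : π (a * b * a⁻¹ * b⁻¹) = 1 := (QuotientGroup.eq_one_iff _).2 (hc a ha b hb)
    simp only [map_mul, map_inv] at this
    rw [← mul_inv_eq_one, ← this]; group) _ h1
  obtain ⟨F, hF, hFX, hFF⟩ := lift_fin π X F' hF' (hcl ▸ Subgroup.subset_closure)
  refine ⟨F, hF, hFX, le_sup_of_map_le M₁ ?_⟩
  rw [MonoidHom.map_closure, hFF, hcl]

/-- every normal subgroup between `V` and `U` is normally finitely generated modulo `V`. -/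
def NFG (V U : Subgroup Γ) : Prop :=
  ∀ X : Subgroup Γ, X.Normal → V ≤ X → X ≤ U →
    ∃ F : Set Γ, F.Finite ∧ F ⊆ X ∧ X ≤ V ⊔ normalClosure F

theorem NFG.refl (V : Subgroup Γ) : NFG V V :=
  fun _ _ _ h => ⟨∅, Set.finite_empty, Set.empty_subset _, h.trans le_sup_left⟩

theorem NFG.trans {V U W : Subgroup Γ} [U.Normal] (hVU : V ≤ U) (hUW : U ≤ W) (h1 : NFG V U)
    (h2 : NFG U W) : NFG V W := by
  intro X hXn hVX hXW
  obtain ⟨F, hF, hFX, hXF⟩ := h2 (X ⊔ U) inferInstance le_sup_right (sup_le hXW hUW)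
  have hrep : ∀ y : F, ∃ x ∈ X, ∃ u ∈ U, x * u = y :=
    fun y => mem_sup_of_normal_right.1 (hFX y.2)
  choose s hs u hu hsu using hrep
  have := hF.to_subtype
  obtain ⟨F2, hF2, hF2X, hXF2⟩ := h1 (X ⊓ U) inferInstance (le_inf hVX hVU) inf_le_right
  have hsX : normalClosure (Set.range s) ≤ X := normalClosure_le_normal (by
    rintro _ ⟨y, rfl⟩; exact hs y)
  have h3 : normalClosure F ≤ U ⊔ normalClosure (Set.range s) := by
    refine normalClosure_le_normal fun y hy => ?_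
    have := hsu ⟨y, hy⟩
    simp only at this
    rw [← this]
    exact mul_mem (mem_sup_right (subset_normalClosure ⟨_, rfl⟩)) (mem_sup_left (hu _))
  refine ⟨F2 ∪ Set.range s, hF2.union (Set.finite_range s), ?_, ?_⟩
  · exact Set.union_subset (fun x hx => (hF2X hx).1) (by rintro _ ⟨y, rfl⟩; exact hs y)
  · intro x hx
    have h4 : x ∈ U ⊔ normalClosure (Set.range s) :=
      (sup_le le_sup_left h3) (hXF (mem_sup_left hx))
    obtain ⟨a, ha, b, hb, rfl⟩ := mem_sup_of_normal_left.1 h4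
    have haX : a ∈ X := by
      have e : a = a * b * b⁻¹ := by group
      rw [e]; exact mul_mem hx (inv_mem (hsX hb))
    refine mul_mem ?_ (mem_sup_right (normalClosure_mono Set.subset_union_right hb))
    exact (sup_le_sup_left (normalClosure_mono Set.subset_union_left) V) (hXF2 ⟨haX, ha⟩)

theorem NFG.of_quot (V U : Subgroup Γ) [V.Normal]
    (h : NFG ⊥ (U.map (QuotientGroup.mk' V))) : NFG V U := by
  intro X hXn _ hXU
  obtain ⟨F', hF', hF'X, hXF'⟩ := h (X.map (QuotientGroup.mk' V))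
    (hXn.map _ (QuotientGroup.mk'_surjective V)) bot_le (map_mono hXU)
  obtain ⟨F, hF, hFX, hFF⟩ := lift_fin _ X F' hF' hF'X
  refine ⟨F, hF, hFX, le_sup_of_map_le V ?_⟩
  rw [map_normalClosure _ _ (QuotientGroup.mk'_surjective V), hFF]
  simpa using hXF'

theorem PA.nfg {N : Subgroup Γ} (h : PA N) : NFG N ⊤ := by
  induction h with
  | top => exact NFG.refl _
  | step M M₁ Y hM hn hle hc hY hgen ih =>
    have := hM.normal
    refine NFG.trans hle le_top ?_ ih
    intro X _ _ hXM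
    obtain ⟨F, hF, hFX, hXF⟩ := fg_mod M₁ Y Y.finite_toSet
      (fun a ha b hb => hc a (hY ha) b (hY hb)) X (hXM.trans hgen)
    exact ⟨F, hF, hFX, hXF.trans (sup_le_sup_left closure_le_normalClosure _)⟩

/-- A normal subgroup with polycyclic quotient of a finitely generated group is the normal closure
of a finite set. -/
theorem PA.normal_fg (hfg : Group.FG Γ) {M : Subgroup Γ} (h : PA M) :
    ∃ F : Set Γ, F.Finite ∧ F ⊆ M ∧ M ≤ normalClosure F := by
  obtain ⟨Xs, hXs, hXfin⟩ := Group.fg_iff.1 hfg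
  induction h with
  | top => exact ⟨Xs, hXfin, Set.subset_univ _, hXs ▸ closure_le_normalClosure⟩
  | step M M₁ Y hM hn hle hc hY hgen ih =>
    obtain ⟨S, hS, hSM, hMS⟩ := ih
    have := hM.normal
    have hdec : ∀ m : Γ, m ∈ M → ∃ u ∈ M₁, ∃ v ∈ Subgroup.closure (Y : Set Γ), u * v = m :=
      fun m hm => mem_sup_of_normal_left.1 (hgen hm)
    choose! u hu v hv huv using hdec
    let T : Set Γ := u '' S ∪ ((fun p : Γ × Γ => u (p.1 * p.2 * p.1⁻¹)) '' (Xs ×ˢ (Y : Set Γ)) ∪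
      ((fun p : Γ × Γ => u (p.1⁻¹ * p.2 * p.1⁻¹⁻¹)) '' (Xs ×ˢ (Y : Set Γ)) ∪
      (fun p : Γ × Γ => p.1 * p.2 * p.1⁻¹ * p.2⁻¹) '' ((Y : Set Γ) ×ˢ (Y : Set Γ))))
    have hTfin : T.Finite :=
      (hS.image _).union (((hXfin.prod Y.finite_toSet).image _).union
        (((hXfin.prod Y.finite_toSet).image _).union
          ((Y.finite_toSet.prod Y.finite_toSet).image _)))
    have hTM : T ⊆ M₁ := by
      rintro _ (⟨s, hs, rfl⟩ | ⟨p, hp, rfl⟩ | ⟨p, hp, rfl⟩ | ⟨p, hp, rfl⟩)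
      · exact hu s (hSM hs)
      · exact hu _ (Normal.conj_mem inferInstance _ (hY hp.2) _)
      · exact hu _ (Normal.conj_mem inferInstance _ (hY hp.2) _)
      · exact hc _ (hY hp.1) _ (hY hp.2)
    let M₂ := normalClosure T
    let V := M₂ ⊔ Subgroup.closure (Y : Set Γ)
    have hV : ∀ m ∈ M, u m ∈ T → m ∈ V := by
      intro m hm hT
      rw [← huv m hm]
      exact mul_mem (mem_sup_left (subset_normalClosure hT)) (mem_sup_right (hv m hm))
    have hconj : ∀ g : Γ, (∀ y ∈ Y, g * y * g⁻¹ ∈ V) → ∀ x ∈ V, g * x * g⁻¹ ∈ V := by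
      intro g hg
      have : V ≤ V.comap (MulAut.conj g).toMonoidHom := by
        refine sup_le (fun x hx => ?_) ((Subgroup.closure_le _).2 fun y hy => hg y hy)
        exact mem_sup_left (Normal.conj_mem inferInstance x hx g)
      exact fun x hx => this hx
    have hVn : V.Normal := by
      let K : Subgroup Γ :=
        { carrier := {g | (∀ x ∈ V, g * x * g⁻¹ ∈ V) ∧ ∀ x ∈ V, g⁻¹ * x * g⁻¹⁻¹ ∈ V}
          one_mem' := ⟨fun x hx => by simpa using hx, fun x hx => by simpa using hx⟩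
          mul_mem' := by
            rintro a b ⟨ha, ha'⟩ ⟨hb, hb'⟩
            refine ⟨fun x hx => ?_, fun x hx => ?_⟩
            · have := ha _ (hb x hx)
              have e : a * b * x * (a * b)⁻¹ = a * (b * x * b⁻¹) * a⁻¹ := by group
              rwa [e]
            · have := hb' _ (ha' x hx)
              have e : (a * b)⁻¹ * x * (a * b)⁻¹⁻¹ = b⁻¹ * (a⁻¹ * x * a⁻¹⁻¹) * b⁻¹⁻¹ := by group
              rwa [e]
          inv_mem' := by
            rintro a ⟨ha, ha'⟩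
            exact ⟨ha', by simpa using ha⟩ }
      have hK : (⊤ : Subgroup Γ) ≤ K := by
        rw [← hXs]
        refine (Subgroup.closure_le _).2 fun g hg => ⟨hconj g fun y hy => ?_, hconj g⁻¹ fun y hy => ?_⟩
        · exact hV _ (Normal.conj_mem inferInstance _ (hY hy) _)
            (Or.inr (Or.inl ⟨(g, y), ⟨hg, hy⟩, rfl⟩))
        · exact hV _ (Normal.conj_mem inferInstance _ (hY hy) _)
            (Or.inr (Or.inr (Or.inl ⟨(g, y), ⟨hg, hy⟩, rfl⟩)))
      exact ⟨fun x hx g => (hK (mem_top g)).1 x hx⟩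
    have hMV : M ≤ V :=
      hMS.trans (normalClosure_le_normal fun s hs => hV s (hSM hs) (Or.inl ⟨s, hs, rfl⟩))
    obtain ⟨F, hF, hFX, hXF⟩ := fg_mod M₂ Y Y.finite_toSet
      (fun a ha b hb => subset_normalClosure (Or.inr (Or.inr (Or.inr ⟨(a, b), ⟨ha, hb⟩, rfl⟩))))
      M₁ (hle.trans hMV)
    refine ⟨T ∪ F, hTfin.union hF, Set.union_subset hTM hFX, hXF.trans (sup_le ?_ ?_)⟩
    · exact normalClosure_mono Set.subset_union_left
    · exact closure_le_normalClosure.trans (normalClosure_mono Set.subset_union_right)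

/-- P. Hall's theorem for an abelian normal subgroup centralised by `N`. -/
theorem nfg_bot {N P : Subgroup Γ} (hN : PA N) [P.Normal] (hPN : P ≤ N)
    (hc : ∀ p ∈ P, ∀ n ∈ N, p * n = n * p) (F : Set Γ) (hF : F.Finite) (hFP : F ⊆ P)
    (hPF : P ≤ normalClosure F) : NFG ⊥ P := by
  let _ : CommGroup P := { (inferInstance : Group P) with
    mul_comm := fun a b => Subtype.ext (hc a a.2 b (hPN b.2)) }
  let φ : Γ →* MulAut P := MulAut.conjNormal
  have hφ : ∀ (g : Γ) (x : P), ((φ g x : P) : Γ) = g * x * g⁻¹ := fun g x => rfl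
  have hnorm : ∀ U : Subgroup P, Inv φ ⊤ U → (U.map P.subtype).Normal := by
    intro U hU
    refine ⟨?_⟩
    rintro _ ⟨x, hx, rfl⟩ g
    exact ⟨φ g x, hU g trivial x hx, rfl⟩
  have hinv : ∀ W : Subgroup Γ, W.Normal → Inv φ ⊤ (W.subgroupOf P) := by
    intro W hW g _ x hx
    exact hW.conj_mem _ hx g
  intro X hXn _ hXP
  obtain ⟨S, hS, hSX, hSV⟩ := hall φ hN (fun h hh x => Subtype.ext (by
      rw [hφ, ← hc x x.2 h hh]; group)) (P.subtype ⁻¹' F)
    (hF.preimage P.subtype_injective.injOn) (by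
      intro U hU hFU
      have := hnorm U hU
      have : normalClosure F ≤ U.map P.subtype :=
        normalClosure_le_normal fun y hy => ⟨⟨y, hFP hy⟩, hFU hy, rfl⟩
      rw [eq_top_iff]
      intro x _
      obtain ⟨y, hy, hyx⟩ := this (hPF x.2)
      rwa [← Subtype.ext hyx]) (X.subgroupOf P)
  refine ⟨P.subtype '' S, hS.image _, ?_, ?_⟩
  · rintro _ ⟨x, hx, rfl⟩; exact hSX hx
  · rw [bot_sup_eq]
    intro x hx
    exact hSV ((normalClosure (P.subtype '' S)).subgroupOf P) (hinv _ inferInstance)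
      (fun y hy => subset_normalClosure ⟨y, hy, rfl⟩) (show (⟨x, hXP hx⟩ : P) ∈ _ from hx)

theorem nfg_factor {N P Q : Subgroup Γ} (hN : PA N) [P.Normal] [Q.Normal] (hPN : P ≤ N)
    (hc : ⁅P, N⁆ ≤ Q) (F : Set Γ) (hF : F.Finite) (hFP : F ⊆ P)
    (hPF : P ≤ Q ⊔ normalClosure F) : NFG Q P := by
  let π := QuotientGroup.mk' Q
  have hπ : Function.Surjective π := QuotientGroup.mk'_surjective Q
  have : (P.map π).Normal := Normal.map inferInstance π hπ
  refine NFG.of_quot Q P (nfg_bot (hN.map π hπ) (map_mono hPN) ?_ (π '' F) (hF.image _)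
    (Set.image_mono hFP) ?_)
  · rintro _ ⟨p, hp, rfl⟩ _ ⟨n, hn, rfl⟩
    have : π ⁅p, n⁆ = 1 := (QuotientGroup.eq_one_iff _).2 (hc (commutator_mem_commutator hp hn))
    rw [map_commutatorElement, commutatorElement_eq_one_iff_mul_comm] at this
    exact this
  · refine (map_mono hPF).trans ?_
    rw [Subgroup.map_sup, map_normalClosure _ _ hπ]
    refine sup_le ?_ le_rfl
    rintro _ ⟨x, hx, rfl⟩
    have : π x = 1 := (QuotientGroup.eq_one_iff _).2 hx
    rw [this]; exact one_mem _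

end

end Pool.Agent.Lib.MP_ab1175_al
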