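import Pool.Agent.Lib.MP_ab1175_al.Aff
import Pool.Agent.Lib.MP_ab1175_al.CA

namespace Pool.Agent.Lib.MP_ab1175_al

open Multiplicative

section
variable {L : Set (FreeGroup ℕ)} {Γ R : Type} [Group Γ] [Ring R]

theorem single_eq_smul_TT (j r : ℤ) : (AddMonoidAlgebra.single j r : Lam) = r • TT j := by
  rw [TT, AddMonoidAlgebra.smul_single, smul_eq_mul, mul_one]

theorem beta_ind (p : Lam → Prop) (h0 : p 0) (h1 : ∀ j, p (TT j)) (hadd : ∀ a b, p a → p b → p (a + b))
    (hneg : ∀ a, p a → p (-a)) (m : Lam) : p m := by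
  let K : AddSubgroup Lam :=
    { carrier := {m | p m}
      zero_mem' := h0
      add_mem' := fun ha hb => hadd _ _ ha hb
      neg_mem' := fun ha => hneg _ ha }
  show m ∈ K
  induction m using AddMonoidAlgebra.induction_linear with
  | zero => exact zero_mem _
  | add a b ha hb => exact add_mem ha hb
  | single j r => rw [single_eq_smul_TT]; exact zsmul_mem (h1 j) r

theorem beta_ext {β β' : Multiplicative Lam →* Γ}
    (h : ∀ j, β (ofAdd (TT j)) = β' (ofAdd (TT j))) : β = β' := by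
  have key : ∀ m : Lam, β (ofAdd m) = β' (ofAdd m) := by
    intro m
    induction m using beta_ind with
    | h0 => simp
    | h1 j => exact h j
    | hadd a b ha hb => rw [ofAdd_add, map_mul, map_mul, ha, hb]
    | hneg a ha => rw [ofAdd_neg, map_inv, map_inv, ha]
  exact MonoidHom.ext fun m => key m.toAdd

theorem beta_mem {β : Multiplicative Lam →* Γ} (H : Subgroup Γ)
    (h : ∀ j, β (ofAdd (TT j)) ∈ H) (m : Lam) : β (ofAdd m) ∈ H := by
  induction m using beta_ind with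
  | h0 => simp
  | h1 j => exact h j
  | hadd a b ha hb => rw [ofAdd_add, map_mul]; exact mul_mem ha hb
  | hneg a ha => rw [ofAdd_neg, map_inv]; exact inv_mem ha

theorem exists_beta (u : ℤ → Γ) (hc : ∀ i j, u i * u j = u j * u i) :
    ∃ β : Multiplicative Lam →* Γ, ∀ j, β (ofAdd (TT j)) = u j := by
  let E := Subgroup.closure (Set.range u)
  have hE : IsMulCommutative E := Subgroup.isMulCommutative_closure (by
    rintro _ ⟨i, rfl⟩ _ ⟨j, rfl⟩; exact hc i j)
  let _ : CommGroup E := { (inferInstance : Group E) with mul_comm := mul_comm' }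
  let v : ℤ → Additive E := fun j => Additive.ofMul ⟨u j, Subgroup.subset_closure ⟨j, rfl⟩⟩
  let f : Lam →+ Additive E := (Finsupp.liftAddHom fun j => zmultiplesHom _ (v j)).comp
    (AddMonoidAlgebra.coeffAddEquiv (R := ℤ) (M := ℤ)).toAddMonoidHom
  refine ⟨E.subtype.comp (AddMonoidHom.toMultiplicativeLeft f), fun j => ?_⟩
  have : f (TT j) = v j := by
    show Finsupp.liftAddHom (fun j => zmultiplesHom _ (v j)) (Finsupp.single j 1) = v j
    simp
  show ((Additive.toMul (f (TT j)) : E) : Γ) = u j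
  rw [this]; rfl

/-- `β` sends `T ^ j` to the conjugate of `b` by `t ^ j`. -/
def IsReal (b t : Γ) (β : Multiplicative Lam →* Γ) : Prop :=
  ∀ j : ℤ, β (ofAdd (TT j)) = t ^ j * b * (t ^ j)⁻¹

theorem IsReal.conj {b t : Γ} {β : Multiplicative Lam →* Γ} (h : IsReal b t β) (k : ℤ) (m : Lam) :
    β (ofAdd (TT k * m)) = t ^ k * β (ofAdd m) * (t ^ k)⁻¹ := by
  induction m using beta_ind with
  | h0 => simp
  | h1 j => rw [← TT_add, h, h, zpow_add]; group
  | hadd a b ha hb => rw [mul_add, ofAdd_add, ofAdd_add, map_mul β, map_mul β, ha, hb]; group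
  | hneg a ha => rw [mul_neg, ofAdd_neg, ofAdd_neg, map_inv β, map_inv β, ha]; group

/-- substitution on the level of exponents. -/
noncomputable def sb (g : Lam) (k : ℤ) : Multiplicative Lam →* Multiplicative Lam :=
  AddMonoidHom.toMultiplicative ((AddMonoidHom.mulLeft g).comp (dil k).toAddMonoidHom)

theorem sb_apply (g : Lam) (k : ℤ) (m : Lam) : sb g k (ofAdd m) = ofAdd (g * dil k m) := rfl

theorem IsReal.comp_sb {b t : Γ} {β : Multiplicative Lam →* Γ} (h : IsReal b t β) (g : Lam) (k : ℤ) :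
    IsReal (β (ofAdd g)) (t ^ k) (β.comp (sb g k)) := by
  intro j
  rw [MonoidHom.comp_apply, sb_apply, dil_TT, mul_comm g, h.conj, zpow_mul]

/-- evaluation. -/
noncomputable def ev (ρ : Γ →* R) (β : Multiplicative Lam →* Γ) : LL →+* R :=
  (AddMonoidAlgebra.lift ℤ R Lam (ρ.comp β)).toRingHom

theorem ev_XX (ρ : Γ →* R) (β : Multiplicative Lam →* Γ) (m : Lam) :
    ev ρ β (XX m) = ρ (β (ofAdd m)) := by
  simp [ev, XX]

theorem LL_ext {S : Type} [Ring S] {f g : LL →+* S} (h : ∀ m, f (XX m) = g (XX m)) : f = g :=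
  AddMonoidAlgebra.ringHom_ext (fun r => by
    have e : (AddMonoidAlgebra.single 0 r : LL) = (r : LL) := rfl
    rw [e, map_intCast, map_intCast]) h

theorem ev_subs (ρ : Γ →* R) (β : Multiplicative Lam →* Γ) (g : Lam) (k : ℤ) (c : LL) :
    ev ρ β (subs g k c) = ev ρ (β.comp (sb g k)) c := by
  have : (ev ρ β).comp (subs g k) = ev ρ (β.comp (sb g k)) := LL_ext fun m => by
    rw [RingHom.comp_apply, subs_XX, ev_XX, ev_XX]; rfl
  exact DFunLike.congr_fun this c

theorem IsReal.ev_conj {b t : Γ} {β : Multiplicative Lam →* Γ} (h : IsReal b t β) (ρ : Γ →* R)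
    (k : ℤ) (c : LL) : ρ (t ^ k) * ev ρ β c = ev ρ β (subs (TT k) 1 c) * ρ (t ^ k) := by
  induction c using AddMonoidAlgebra.induction_linear with
  | zero => simp
  | add a b ha hb => rw [map_add, map_add, map_add, mul_add, add_mul, ha, hb]
  | single m r =>
    have e : (AddMonoidAlgebra.single m r : LL) = r • XX m := by
      rw [XX, AddMonoidAlgebra.smul_single, smul_eq_mul, mul_one]
    rw [e, map_zsmul, map_zsmul, map_zsmul, mul_smul_comm, smul_mul_assoc, subs_XX, dil_one,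
      ev_XX, ev_XX, h.conj, ← map_mul, ← map_mul]
    congr 2; group

theorem IsReal.relation {b t : Γ} {β : Multiplicative Lam →* Γ} (h : IsReal b t β) (ρ : Γ →* R)
    (p : Ideal LL) (hp : p.IsPrime) (hker : ∀ c, ev ρ β c = 0 → c ∈ p)
    (hap : ∀ j : ℤ, j ≠ 0 → ∃ i : ℤ, XX (TT i) - XX (TT (i + j)) ∉ p) (n : ℕ) :
    ∀ (s : Finset ℤ) (a : ℤ → LL), s.card = n → 0 ∉ s →
      ev ρ β (a 0) + ∑ j ∈ s, ρ (t ^ j) * ev ρ β (a j) = 0 → a 0 ∈ p := by
  induction n with
  | zero =>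
    intro s a hs _ hrel
    rw [Finset.card_eq_zero.1 hs, Finset.sum_empty, add_zero] at hrel
    exact hker _ hrel
  | succ n ih =>
    intro s a hs h0 hrel
    obtain ⟨j0, hj0⟩ : s.Nonempty := Finset.card_pos.1 (by omega)
    obtain ⟨i, hi⟩ := hap j0 (fun e => h0 (e ▸ hj0))
    have hX : ∀ j : ℤ, ev ρ β (XX (TT (i + j0))) * ρ (t ^ j) =
        ρ (t ^ j) * ev ρ β (XX (TT (i + j0 - j))) := by
      intro j
      rw [h.ev_conj, subs_XX, dil_one, ← TT_add]
      congr 4; ring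
    have h1 := ih (s.erase j0) (fun j => a j * (XX (TT i) - XX (TT (i + j0 - j))))
      (by rw [Finset.card_erase_of_mem hj0, hs]; rfl) (fun e => h0 (Finset.mem_of_mem_erase e)) (by
        have h2 : (ev ρ β (a 0) + ∑ j ∈ s, ρ (t ^ j) * ev ρ β (a j)) * ev ρ β (XX (TT i)) -
            ev ρ β (XX (TT (i + j0))) * (ev ρ β (a 0) + ∑ j ∈ s, ρ (t ^ j) * ev ρ β (a j)) = 0 := by
          rw [hrel]; simp
        rw [← h2, Finset.sum_erase _ (by simp), add_mul, mul_add, Finset.sum_mul, Finset.mul_sum,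
          add_sub_add_comm, ← Finset.sum_sub_distrib]
        congr 1
        · rw [← map_mul, ← map_mul, ← map_sub, sub_zero]; congr 1; ring
        · refine Finset.sum_congr rfl fun j _ => ?_
          rw [← mul_assoc, hX, mul_assoc, mul_assoc, ← mul_sub, ← map_mul, ← map_mul, ← map_sub]
          congr 2; ring)
    rw [sub_zero] at h1
    exact (hp.mem_or_mem h1).resolve_right hi

theorem IsReal.recurrent (hL : HopfVar L) {ρ : Γ →* R} (hρ : InVar L (Aff ρ)) {b t : Γ}
    (hgen : Subgroup.closure {b, t} = ⊤) {β : Multiplicative Lam →* Γ} (h : IsReal b t β)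
    (p : Ideal LL) (hp : p.IsPrime) (hker : ∀ c, ev ρ β c = 0 → c ∈ p)
    (hi : ∀ i : ℕ, TT (i + 1) ∈ KK p) : (1 : Lam) ∈ KK p := by
  classical
  by_contra h1
  have hap : ∀ j : ℤ, j ≠ 0 → ∃ i : ℤ, XX (TT i) - XX (TT (i + j)) ∉ p := by
    intro j hj
    by_contra hcon
    push Not at hcon
    rcases lt_or_gt_of_ne hj with hj | hj
    · obtain ⟨n, hn⟩ := Int.eq_ofNat_of_zero_le (by omega : 0 ≤ -j - 1)
      have h2 := KK_sub (hcon (-j))
      rw [neg_add_cancel, TT_zero, show -j = n + 1 by omega] at h2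
      exact h1 (by simpa using sub_mem (hi n) h2)
    · obtain ⟨n, hn⟩ := Int.eq_ofNat_of_zero_le (by omega : 0 ≤ j - 1)
      have h2 := KK_sub (hcon 0)
      rw [zero_add, TT_zero, show j = n + 1 by omega] at h2
      exact h1 (by simpa using add_mem h2 (hi n))
  let I : Ideal LL := Ideal.span (Set.range fun i : ℕ => XX (TT (i + 1)) - 1)
  have hIp : I ≤ p := Ideal.span_le.2 (by rintro _ ⟨i, rfl⟩; exact hi i)
  have hIσ : I ≤ I.comap (subs (TT 1) 1) := Ideal.span_le.2 (by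
    rintro _ ⟨i, rfl⟩
    show subs (TT 1) 1 _ ∈ I
    rw [map_sub, map_one, subs_XX, dil_one, ← TT_add]
    refine Ideal.subset_span ⟨i + 1, ?_⟩
    simp only
    congr 3; push_cast; ring)
  let J : AddSubgroup R := AddSubgroup.closure {z | ∃ j : ℤ, ∃ c ∈ I, z = ρ (t ^ j) * ev ρ β c}
  have J_le : ∀ W : AddSubgroup R, (∀ j : ℤ, ∀ c ∈ I, ρ (t ^ j) * ev ρ β c ∈ W) → J ≤ W := by
    intro W hW
    refine (AddSubgroup.closure_le _).2 ?_
    rintro _ ⟨j, c, hc, rfl⟩
    exact hW j c hc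
  have hJt : ∀ k : ℤ, ∀ x ∈ J, ρ (t ^ k) * x ∈ J := by
    intro k
    refine J_le (J.comap (AddMonoidHom.mulLeft (ρ (t ^ k)))) fun j c hc => ?_
    refine AddSubgroup.subset_closure ⟨k + j, c, hc, ?_⟩
    show ρ (t ^ k) * _ = _
    rw [zpow_add, map_mul, mul_assoc]
  have hJb : ∀ m : Lam, ∀ x ∈ J, ρ (β (ofAdd m)) * x ∈ J := by
    intro m
    refine J_le (J.comap (AddMonoidHom.mulLeft (ρ (β (ofAdd m))))) fun j c hc => ?_
    refine AddSubgroup.subset_closure ⟨j, XX (TT (-j) * m) * c, I.mul_mem_left _ hc, ?_⟩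
    show ρ (β (ofAdd m)) * _ = _
    rw [map_mul, ev_XX, h.conj, ← mul_assoc, ← mul_assoc, ← map_mul, ← map_mul]
    congr 2; group
  have hb : β (ofAdd 1) = b := by rw [← TT_zero, h]; simp
  have hJl : ∀ g, ∀ x ∈ J, ρ g * x ∈ J := by
    intro g
    have hg : g ∈ Subgroup.closure {b, t} := by rw [hgen]; trivial
    induction hg using Subgroup.closure_induction'' with
    | mem g hg =>
      rcases hg with rfl | rfl
      · rw [← hb]; exact hJb 1
      · simpa using hJt 1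
    | inv_mem g hg =>
      rcases hg with rfl | rfl
      · rw [← hb, ← map_inv, ← ofAdd_neg]; exact hJb (-1)
      · simpa using hJt (-1)
    | one => simp
    | mul g k _ _ hg hk =>
      intro x hx
      rw [map_mul, mul_assoc]
      exact hg _ (hk x hx)
  have hcj : ∀ c, ev ρ β c * ρ t⁻¹ = ρ (t ^ (-1 : ℤ)) * ev ρ β (subs (TT 1) 1 c) := by
    intro c
    have h2 := h.ev_conj ρ 1 c
    rw [zpow_one] at h2
    rw [zpow_neg_one]
    calc ev ρ β c * ρ t⁻¹ = ρ t⁻¹ * (ρ t * ev ρ β c) * ρ t⁻¹ := by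
          rw [← mul_assoc, ← map_mul, inv_mul_cancel, map_one, one_mul]
      _ = _ := by
          rw [h2, mul_assoc, mul_assoc, ← map_mul, mul_inv_cancel, map_one, mul_one]
  have hJr : ∀ x ∈ J, x * ρ t⁻¹ ∈ J := by
    refine J_le (J.comap (AddMonoidHom.mulRight (ρ t⁻¹))) fun j c hc => ?_
    show ρ (t ^ j) * ev ρ β c * ρ t⁻¹ ∈ J
    rw [mul_assoc, hcj]
    exact hJt _ _ (AddSubgroup.subset_closure ⟨-1, _, hIσ hc, rfl⟩)
  have hfg : Group.FG Γ := Group.fg_iff.2 ⟨_, hgen, Set.toFinite _⟩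
  have hx := hopf_ring hL hρ hfg J hJl t⁻¹ hJr (ev ρ β (XX 1 - 1)) (by
    rw [map_sub, map_one, ev_XX]; exact sub_mem (R0_mem ρ _) (R0_one ρ)) (by
    rw [hcj]
    refine AddSubgroup.subset_closure ⟨-1, _, ?_, rfl⟩
    rw [map_sub, map_one, subs_XX, dil_one, mul_one]
    exact Ideal.subset_span ⟨0, by simp⟩)
  let Φ : (ℤ →₀ LL) →+ R := Finsupp.liftAddHom fun j =>
    (AddMonoidHom.mulLeft (ρ (t ^ j))).comp (ev ρ β).toAddMonoidHom
  let W : AddSubgroup (ℤ →₀ LL) :=
    { carrier := {c | ∀ j, c j ∈ I}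
      zero_mem' := fun j => zero_mem _
      add_mem' := fun ha hb j => add_mem (ha j) (hb j)
      neg_mem' := fun ha j => neg_mem (ha j) }
  obtain ⟨c, hc, hcx⟩ := J_le (W.map Φ) (fun j c hc => ⟨Finsupp.single j c, fun i => by
    rw [Finsupp.single_apply]; split_ifs
    · exact hc
    · exact zero_mem _, by simp [Φ]⟩) hx
  have hΦ : Φ c = ev ρ β (c 0) + ∑ j ∈ c.support.erase 0, ρ (t ^ j) * ev ρ β (c j) := by
    have e1 : Φ c = ∑ j ∈ insert 0 (c.support.erase 0), ρ (t ^ j) * ev ρ β (c j) := by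
      rw [Finsupp.liftAddHom_apply]
      exact Finsupp.sum_of_support_subset _ (Finset.subset_insert_iff.2 le_rfl) _ (by simp)
    rw [e1, Finset.sum_insert (Finset.notMem_erase _ _)]
    simp
  have h3 := h.relation ρ p hp hker hap _ (c.support.erase 0)
    (fun j => if j = 0 then c 0 - (XX 1 - 1) else c j) rfl (Finset.notMem_erase _ _) (by
      rw [if_pos rfl, map_sub, ← hcx, hΦ]
      have e : ∑ j ∈ c.support.erase 0, ρ (t ^ j) * ev ρ β (if j = 0 then
            (c 0 - (XX 1 - 1)) else c j) = ∑ j ∈ c.support.erase 0, ρ (t ^ j) * ev ρ β (c j) :=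
        Finset.sum_congr rfl fun j hj => by rw [if_neg (Finset.ne_of_mem_erase hj)]
      rw [e]
      abel)
  rw [if_pos rfl] at h3
  exact h1 (by simpa [KK] using sub_mem (hIp (hc 0)) h3)

theorem exists_word {h : Lam} (hh : h ∈ Lp) : ∃ w : FreeGroup ℕ, ∀ (b t : Γ) β, IsReal b t β →
    β (ofAdd h) = FreeGroup.lift (fun i : ℕ => t ^ (i + 1) * b * (t ^ (i + 1))⁻¹) w := by
  induction hh using AddSubgroup.closure_induction with
  | mem x hx =>
    obtain ⟨i, rfl⟩ := hx
    refine ⟨FreeGroup.of i, fun b t β hβ => ?_⟩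
    rw [FreeGroup.lift_apply_of, hβ]
    norm_cast
  | zero => exact ⟨1, fun b t β _ => by simp⟩
  | add x y _ _ hx hy =>
    obtain ⟨w, hw⟩ := hx
    obtain ⟨w', hw'⟩ := hy
    exact ⟨w * w', fun b t β hβ => by rw [ofAdd_add, map_mul, map_mul, hw b t β hβ, hw' b t β hβ]⟩
  | neg x _ hx =>
    obtain ⟨w, hw⟩ := hx
    exact ⟨w⁻¹, fun b t β hβ => by rw [ofAdd_neg, map_inv, map_inv, hw b t β hβ]⟩

/-- modulo its unipotent elements an abelian normal subgroup satisfies a linear recurrence. -/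
theorem recur_of_unip (hL : HopfVar L) {ρ : Γ →* R} (hρ : InVar L (Aff ρ)) (B : Subgroup Γ)
    [B.Normal] (hc : ∀ a ∈ B, ∀ b ∈ B, a * b = b * a)
    (hu : ∀ b ∈ B, IsNilpotent (ρ b - 1) → b = 1) : Recur B := by
  have hex : ∀ b ∈ B, ∀ t : Γ, ∃ β, IsReal b t β := fun b hb t =>
    exists_beta _ fun i j => hc _ (Subgroup.Normal.conj_mem inferInstance b hb _) _
      (Subgroup.Normal.conj_mem inferInstance b hb _)
  have hmem : ∀ b ∈ B, ∀ t β, IsReal b t β → ∀ m, β (ofAdd m) ∈ B := fun b hb t β hβ =>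
    beta_mem B fun j => by rw [hβ]; exact Subgroup.Normal.conj_mem inferInstance b hb _
  let 𝔄 : Ideal LL :=
    { carrier := {c | ∀ b ∈ B, ∀ t β, IsReal b t β → ev ρ β c = 0}
      zero_mem' := fun _ _ _ _ _ => map_zero _
      add_mem' := fun ha hb b hbB t β hβ => by
        rw [map_add, ha b hbB t β hβ, hb b hbB t β hβ, add_zero]
      smul_mem' := fun r c hc b hbB t β hβ => by
        rw [smul_eq_mul, map_mul, hc b hbB t β hβ, mul_zero] }
  obtain ⟨h, hh, e, he⟩ := ca_main 𝔄 (fun g k c hc b hb t β hβ => by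
      rw [ev_subs]
      exact hc _ (hmem b hb t β hβ g) _ _ (hβ.comp_sb g k)) (by
    intro p hp hAp hi
    let bb : B × Γ → Γ := fun i => i.1
    let tt : B × Γ → Γ := fun i => i.2
    let Γ0 : Subgroup (B × Γ → Γ) := Subgroup.closure {bb, tt}
    let b0 : Γ0 := ⟨bb, Subgroup.subset_closure (by simp)⟩
    let t0 : Γ0 := ⟨tt, Subgroup.subset_closure (by simp)⟩
    let π : B × Γ → (Γ0 →* Γ) := fun i => (Pi.evalMonoidHom (fun _ => Γ) i).comp Γ0.subtype
    let ρ0 : Γ0 →* (B × Γ → R) := MonoidHom.pi fun i => ρ.comp (π i)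
    have hρ0 : InVar L (Aff ρ0) := by
      refine InVar.of_injective (MonoidHom.pi fun i => Aff.map (ρ' := ρ) (π i)
        (Pi.evalAddMonoidHom (fun _ => R) i) fun g x => rfl) ?_ (InVar.pi fun _ => hρ)
      intro x y hxy
      refine Aff.ext (funext fun i => congrArg Aff.r (congrFun hxy i))
        (Subtype.ext (funext fun i => congrArg Aff.g (congrFun hxy i)))
    have hgen : Subgroup.closure {b0, t0} = ⊤ := by
      rw [← Subgroup.closure_closure_coe_preimage (k := {bb, tt})]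
      congr 1
      ext x
      simp [b0, t0, Subtype.ext_iff]
    obtain ⟨β0, hβ0⟩ : ∃ β, IsReal b0 t0 β := exists_beta _ fun i j => Subtype.ext (funext fun k =>
      hc _ (Subgroup.Normal.conj_mem inferInstance _ k.1.2 (π k (t0 ^ i))) _
        (Subgroup.Normal.conj_mem inferInstance _ k.1.2 (π k (t0 ^ j))))
    refine hβ0.recurrent hL hρ0 hgen p hp (fun c hc0 => hAp fun b hb t β hβ => ?_) hi
    have e1 : β = (π (⟨b, hb⟩, t)).comp β0 := beta_ext fun j => by
      rw [hβ, MonoidHom.comp_apply, hβ0, map_mul, map_mul, map_inv, map_zpow]; rfl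
    have e2 : ev ρ β = (Pi.evalRingHom (fun _ => R) (⟨b, hb⟩, t)).comp (ev ρ0 β0) :=
      LL_ext fun m => by rw [RingHom.comp_apply, ev_XX, ev_XX, e1]; rfl
    rw [e2, RingHom.comp_apply, hc0, map_zero])
  obtain ⟨w, hw⟩ := exists_word (Γ := Γ) hh
  refine fun t => ⟨w, fun b hb => ?_⟩
  obtain ⟨β, hβ⟩ := hex b hb t
  have h1 := he b hb t β hβ
  rw [map_pow, map_sub, map_one, ev_XX] at h1
  have h2 := hu _ (hmem b hb t β hβ _) ⟨e, h1⟩
  have hb1 : β (ofAdd 1) = b := by rw [← TT_zero, hβ]; simp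
  rw [← hw b t β hβ]
  rw [ofAdd_sub, map_div, hb1, div_eq_one] at h2
  exact h2

end

end Pool.Agent.Lib.MP_ab1175_al
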