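import Pool.Agent.Lib.MP_ab1175_al.Univ

namespace Pool.Agent.Lib.MP_ab1175_al

open Subgroup
open scoped commutatorElement

section
variable {L : Set (FreeGroup ℕ)} {Γ : Type} [Group Γ]

/-- Every element of `C` is a fixed word in its conjugates by positive powers of `t`. -/
def Recur (C : Subgroup Γ) : Prop :=
  ∀ t : Γ, ∃ w : FreeGroup ℕ, ∀ c ∈ C,
    c = FreeGroup.lift (fun i : ℕ => t ^ (i + 1) * c * (t ^ (i + 1))⁻¹) w

theorem lift_mem {Z : Type} [Group Z] (f : ℕ → Z) (H : Subgroup Z) (h : ∀ i, f i ∈ H)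
    (w : FreeGroup ℕ) : FreeGroup.lift f w ∈ H :=
  FreeGroup.range_lift_le (s := H) (by rintro _ ⟨i, rfl⟩; exact h i) ⟨w, rfl⟩

theorem orbit_fin {Z : Type} [Group Z] (φ : Γ →* MulAut Z) (Y : Set Z)
    (hY : ∀ g, ∀ x ∈ Y, φ g x ∈ Y) {N : Subgroup Γ} (hN : PA N)
    (htriv : ∀ g ∈ N, ∀ x ∈ Y, φ g x = x)
    (hrec : ∀ t : Γ, ∃ w : FreeGroup ℕ, ∀ x ∈ Y,
      x = FreeGroup.lift (fun i : ℕ => φ (t ^ (i + 1)) x) w)
    (F : Set Z) (hF : F.Finite) (hFY : F ⊆ Y) :
    ∃ F' : Set Z, F'.Finite ∧ F' ⊆ Y ∧ ∀ g, ∀ x ∈ F, φ g x ∈ Subgroup.closure F' := by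
  have hφ : ∀ a b : Γ, ∀ x : Z, φ (a * b) x = φ a (φ b x) := by
    intro a b x; rw [map_mul]; rfl
  have hφ1 : ∀ x : Z, φ 1 x = x := by intro x; rw [map_one]; rfl
  have hcl : ∀ g s (W : Subgroup Z), (∀ x ∈ s, φ g x ∈ W) →
      ∀ z ∈ Subgroup.closure s, φ g z ∈ W := by
    intro g s W h
    have : Subgroup.closure s ≤ W.comap (φ g).toMonoidHom := (Subgroup.closure_le _).2 h
    exact fun z hz => this hz
  obtain ⟨F', hF', hFF, horb, hall⟩ := orbit_fg (fun g x => φ g x) hφ1 hφ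
    (fun s => Subgroup.closure s) Y hY (fun s => Subgroup.subset_closure)
    (fun s t h => (Subgroup.closure_le _).2 h)
    (fun s x hx => by
      have := closure_fin (fun x z : Z => x = z) s x (by simpa using hx)
      simpa using this)
    (fun g s x hx => hcl g s _
      (fun x hx => Subgroup.subset_closure (Set.mem_image_of_mem _ hx)) x hx)
    (by
      intro t s hsY hts x hx
      obtain ⟨w, hw⟩ := hrec t
      show φ t⁻¹ x ∈ Subgroup.closure s
      rw [hw _ (hY t⁻¹ x (hsY hx))]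
      refine lift_mem _ _ (fun i => ?_) w
      rw [← hφ, pow_succ, mul_assoc, mul_inv_cancel, mul_one]
      induction i with
      | zero => rw [pow_zero, hφ1]; exact Subgroup.subset_closure hx
      | succ i ih => rw [pow_succ', hφ]; exact hcl t s _ hts _ ih)
    hN F hF hFY (fun g hg x hx => by
      show φ g x ∈ Subgroup.closure F
      rw [htriv g hg x (hFY hx)]; exact Subgroup.subset_closure hx)
  refine ⟨F', hF', ?_, fun g x hx => hall g x (hFF hx)⟩
  intro y hy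
  obtain ⟨g, x, hx, rfl⟩ := horb y hy
  exact hY g x (hFY hx)

theorem pa_bot_of_comm (hfg : Group.FG Γ) {N : Subgroup Γ} (hN : PA N)
    (hc : ∀ a ∈ N, ∀ b ∈ N, a * b = b * a) (hrec : Recur N) : PA (⊥ : Subgroup Γ) := by
  have := hN.normal
  obtain ⟨F, hF, hFN, hNF⟩ := hN.normal_fg hfg
  obtain ⟨F', hF', hF'N, hall⟩ := orbit_fin (MulAut.conj : Γ →* MulAut Γ) N
    (fun g x hx => Normal.conj_mem inferInstance x hx g) hN
    (fun g hg x hx => by
      show g * x * g⁻¹ = x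
      rw [hc g hg x hx]; group) hrec F hF hFN
  refine PA.step N ⊥ hF'.toFinset hN inferInstance bot_le ?_ (by simpa using hF'N) ?_
  · intro a ha b hb
    rw [hc a ha b hb, Subgroup.mem_bot]; group
  · rw [bot_sup_eq, hF'.coe_toFinset]
    refine hNF.trans ((Subgroup.closure_le _).2 fun x hx => ?_)
    obtain ⟨n, hn, hnt⟩ := Group.mem_conjugatesOfSet_iff.1 hx
    obtain ⟨k, rfl⟩ := isConj_iff.1 hnt
    exact hall k n hn

/-- Reduction of the nilpotency class. -/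
theorem class_reduction (hL : HopfVar L) (hΓ : InVar L Γ) (hfg : Group.FG Γ) {N P : Subgroup Γ}
    (hN : PA N) [P.Normal] (hPN : P ≤ N) (hC : ∀ c ∈ ⁅P, N⁆, ∀ n ∈ N, c * n = n * c)
    (hrec : Recur ⁅P, N⁆) : PA (N ⊓ centralizer (P : Set Γ)) := by
  have := hN.normal
  obtain ⟨FN, hFN, hFNN, hNF⟩ := hN.normal_fg hfg
  choose! F0 hF0 hF0' using univ_orbit hL hΓ hfg hN hPN hC
  let δ : Γ →* (P → Γ) := Pi.constMonoidHom P Γ
  let φ : Γ →* MulAut (P → Γ) := MulAut.conj.comp δ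
  have hφ : ∀ k x q, φ k x q = k * x q * k⁻¹ := fun _ _ _ => rfl
  let Y : Set (P → Γ) := {x | ∀ q, x q ∈ ⁅P, N⁆}
  have hCN : ⁅P, N⁆ ≤ N := commutator_le_right _ _
  let F : Set (P → Γ) := ⋃ n ∈ FN, (fun f : Γ => fun q : P => ⁅f * q * f⁻¹, n⁆) '' (F0 n)
  have hF : F.Finite := hFN.biUnion fun n hn => (hF0 n (hFNN hn)).image _
  have hFY : F ⊆ Y := by
    intro x hx
    simp only [F, Set.mem_iUnion] at hx
    obtain ⟨n, hn, f, hf, rfl⟩ := hx
    exact fun q => commutator_mem_commutator (Normal.conj_mem inferInstance _ q.2 _) (hFNN hn)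
  obtain ⟨F', hF', hF'Y, hall⟩ := orbit_fin φ Y
    (fun g x hx q => Normal.conj_mem inferInstance _ (hx q) g) hN
    (fun g hg x hx => by
      funext q
      rw [hφ, ← hC _ (hx q) g hg]; group)
    (fun t => by
      obtain ⟨w, hw⟩ := hrec t
      refine ⟨w, fun x hx => ?_⟩
      funext q
      have h1 := hw _ (hx q)
      have h2 : (Pi.evalMonoidHom (fun _ : P => Γ) q).comp
          (FreeGroup.lift fun i : ℕ => φ (t ^ (i + 1)) x) =
          FreeGroup.lift (fun i : ℕ => t ^ (i + 1) * x q * (t ^ (i + 1))⁻¹) := by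
        ext i
        simp only [MonoidHom.comp_apply, FreeGroup.lift_apply_of]
        exact hφ _ _ _
      rw [h1, ← h2]; rfl) F hF hFY
  let ε : N →* (P → Γ) := MonoidHom.mk' (fun n q => ⁅(q : Γ), (n : Γ)⁆) (by
    intro a b
    funext q
    show ⁅(q : Γ), (a : Γ) * b⁆ = ⁅(q : Γ), (a : Γ)⁆ * ⁅(q : Γ), (b : Γ)⁆
    have h1 := hC _ (commutator_mem_commutator q.2 b.2) a a.2
    calc ⁅(q : Γ), (a : Γ) * b⁆ = ⁅(q : Γ), (a : Γ)⁆ * (a * ⁅(q : Γ), (b : Γ)⁆) * (a : Γ)⁻¹ := by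
          simp only [commutatorElement_def]; group
      _ = _ := by rw [← h1]; group)
  have hrange : ε.range ≤ Subgroup.closure F' := by
    have h1 : normalClosure FN ≤ ((Subgroup.closure F').comap ε).map N.subtype := by
      refine (Subgroup.closure_le _).2 fun x hx => ?_
      obtain ⟨n, hn, hnt⟩ := Group.mem_conjugatesOfSet_iff.1 hx
      obtain ⟨k, rfl⟩ := isConj_iff.1 hnt
      refine ⟨⟨k * n * k⁻¹, Normal.conj_mem inferInstance _ (hFNN hn) k⟩, ?_, rfl⟩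
      have h2 := hF0' n (hFNN hn) k⁻¹
      have h3 := (Subgroup.closure_le ((Subgroup.closure F').comap (φ k).toMonoidHom)).2 (by
        rintro _ ⟨f, hf, k', rfl⟩
        have h4 := hall (k * k') (fun q : P => ⁅f * q * f⁻¹, n⁆) (by
          simp only [F, Set.mem_iUnion]
          exact ⟨n, hn, f, hf, rfl⟩)
        rw [map_mul] at h4
        exact h4) h2
      show ε _ ∈ Subgroup.closure F'
      have h5 : φ k (fun q : P => ⁅k⁻¹ * q * k⁻¹⁻¹, n⁆) ∈ Subgroup.closure F' := h3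
      convert h5 using 1
      funext q
      show ⁅(q : Γ), k * n * k⁻¹⁆ = k * ⁅k⁻¹ * q * k⁻¹⁻¹, n⁆ * k⁻¹
      simp only [commutatorElement_def]; group
    rintro _ ⟨n, rfl⟩
    obtain ⟨n', hn', e⟩ := h1 (hNF n.2)
    rwa [← Subtype.ext e]
  obtain ⟨F3, hF3, hcl⟩ := fg_of_le_closure' F' hF' (fun a ha b hb => by
    funext q
    exact hC _ (hF'Y ha q) _ (hCN (hF'Y hb q))) _ hrange
  obtain ⟨F4, hF4, -, hF43⟩ := lift_fin ε ⊤ F3 hF3 (by
    rw [← MonoidHom.range_eq_map, ← hcl]; exact Subgroup.subset_closure)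
  have hker : ∀ n : N, ε n = 1 → (n : Γ) ∈ N ⊓ centralizer (P : Set Γ) := by
    intro n hn
    refine ⟨n.2, Subgroup.mem_centralizer_iff.2 fun q hq => ?_⟩
    exact commutatorElement_eq_one_iff_mul_comm.1 (congrFun hn ⟨q, hq⟩)
  refine PA.step N _ (hF4.image N.subtype).toFinset hN inferInstance inf_le_left ?_ ?_ ?_
  · intro a ha b hb
    refine hker (⟨a, ha⟩ * ⟨b, hb⟩ * ⟨a, ha⟩⁻¹ * ⟨b, hb⟩⁻¹) ?_
    have : ε ⟨a, ha⟩ * ε ⟨b, hb⟩ = ε ⟨b, hb⟩ * ε ⟨a, ha⟩ := by
      funext q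
      exact hC _ (commutator_mem_commutator q.2 ha) _ (hCN (commutator_mem_commutator q.2 hb))
    simp only [map_mul, map_inv]
    rw [this]; group
  · rw [Set.Finite.coe_toFinset]
    rintro _ ⟨x, -, rfl⟩
    exact x.2
  · rw [Set.Finite.coe_toFinset, ← MonoidHom.map_closure]
    intro n hn
    have h5 : ε ⟨n, hn⟩ ∈ (Subgroup.closure F4).map ε := by
      rw [MonoidHom.map_closure, hF43, hcl]; exact ⟨_, rfl⟩
    obtain ⟨v, hv, e⟩ := h5
    have e2 : n = (n * (v : Γ)⁻¹) * v := by group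
    rw [e2]
    refine mul_mem (mem_sup_left (hker (⟨n, hn⟩ * v⁻¹) ?_)) (mem_sup_right ⟨v, hv, rfl⟩)
    rw [map_mul, map_inv, e, mul_inv_cancel]

/-- If all central sections satisfy `Recur`, the whole group is polycyclic. -/
theorem pa_bot (hL : HopfVar L) (hΓ : InVar L Γ) (hfg : Group.FG Γ) (N₀ : Subgroup Γ)
    (hrec : ∀ N B : Subgroup Γ, PA N → N ≤ N₀ → B.Normal → B ≤ N →
      (∀ b ∈ B, ∀ n ∈ N, b * n = n * b) → Recur B) :
    ∀ (c : ℕ) (N : Subgroup Γ), PA N → N ≤ N₀ → lcs N c = ⊥ → PA (⊥ : Subgroup Γ)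
  | 0, N, hN, _, hc => by
    have : N = ⊥ := hc
    exact this ▸ hN
  | 1, N, hN, h0, hc => by
    have h1 : ∀ a ∈ N, ∀ b ∈ N, a * b = b * a := by
      intro a ha b hb
      have h2 : ⁅a, b⁆ ∈ lcs N 1 := commutator_mem_commutator ha hb
      rw [hc, Subgroup.mem_bot] at h2
      exact commutatorElement_eq_one_iff_mul_comm.1 h2
    exact pa_bot_of_comm hfg hN h1 (hrec N N hN h0 hN.normal le_rfl h1)
  | c + 2, N, hN, h0, hc => by
    have := hN.normal
    have h1 : ∀ a ∈ ⁅lcs N c, N⁆, ∀ b ∈ N, a * b = b * a := by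
      intro a ha b hb
      have h2 : ⁅a, b⁆ ∈ lcs N (c + 2) := commutator_mem_commutator ha hb
      rw [hc, Subgroup.mem_bot] at h2
      exact commutatorElement_eq_one_iff_mul_comm.1 h2
    have h3 := class_reduction hL hΓ hfg hN (lcs_le N c) h1
      (hrec N _ hN h0 inferInstance (commutator_le_right _ _) h1)
    refine pa_bot hL hΓ hfg N₀ hrec (c + 1) _ h3 (inf_le_left.trans h0) ?_
    rw [lcs, eq_bot_iff, Subgroup.commutator_le]
    intro a ha b hb
    rw [Subgroup.mem_bot, commutatorElement_eq_one_iff_mul_comm]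
    exact Subgroup.mem_centralizer_iff.1 hb.2 a (lcs_mono inf_le_left c ha)

end

end Pool.Agent.Lib.MP_ab1175_al
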