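import Pool.Agent.Lib.MP_ab1175_al.NormalFG

namespace Pool.Agent.Lib.MP_ab1175_al

open Subgroup
open scoped commutatorElement

theorem closure_fin {X G : Type} [Group G] (r : X → G → Prop) (s : Set X) (z : G)
    (hz : z ∈ Subgroup.closure {z | ∃ x ∈ s, r x z}) :
    ∃ s0 ⊆ s, s0.Finite ∧ z ∈ Subgroup.closure {z | ∃ x ∈ s0, r x z} := by
  have mono : ∀ s1 s2 : Set X, s1 ⊆ s2 → Subgroup.closure {z | ∃ x ∈ s1, r x z} ≤
      Subgroup.closure {z | ∃ x ∈ s2, r x z} :=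
    fun s1 s2 h => Subgroup.closure_mono fun z ⟨x, hx, hr⟩ => ⟨x, h hx, hr⟩
  induction hz using Subgroup.closure_induction with
  | mem z hz =>
    obtain ⟨x, hx, hr⟩ := hz
    exact ⟨{x}, Set.singleton_subset_iff.2 hx, Set.finite_singleton x,
      Subgroup.subset_closure ⟨x, rfl, hr⟩⟩
  | one => exact ⟨∅, Set.empty_subset _, Set.finite_empty, one_mem _⟩
  | mul a b _ _ ha hb =>
    obtain ⟨s1, h1, f1, m1⟩ := ha
    obtain ⟨s2, h2, f2, m2⟩ := hb
    exact ⟨s1 ∪ s2, Set.union_subset h1 h2, f1.union f2,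
      mul_mem (mono _ _ Set.subset_union_left m1) (mono _ _ Set.subset_union_right m2)⟩
  | inv a _ ha =>
    obtain ⟨s1, h1, f1, m1⟩ := ha
    exact ⟨s1, h1, f1, inv_mem m1⟩

theorem addClosure_fin {X G : Type} [AddGroup G] (r : X → G → Prop) (s : Set X) (z : G)
    (hz : z ∈ AddSubgroup.closure {z | ∃ x ∈ s, r x z}) :
    ∃ s0 ⊆ s, s0.Finite ∧ z ∈ AddSubgroup.closure {z | ∃ x ∈ s0, r x z} := by
  have mono : ∀ s1 s2 : Set X, s1 ⊆ s2 → AddSubgroup.closure {z | ∃ x ∈ s1, r x z} ≤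
      AddSubgroup.closure {z | ∃ x ∈ s2, r x z} :=
    fun s1 s2 h => AddSubgroup.closure_mono fun z ⟨x, hx, hr⟩ => ⟨x, h hx, hr⟩
  induction hz using AddSubgroup.closure_induction with
  | mem z hz =>
    obtain ⟨x, hx, hr⟩ := hz
    exact ⟨{x}, Set.singleton_subset_iff.2 hx, Set.finite_singleton x,
      AddSubgroup.subset_closure ⟨x, rfl, hr⟩⟩
  | zero => exact ⟨∅, Set.empty_subset _, Set.finite_empty, zero_mem _⟩
  | add a b _ _ ha hb =>
    obtain ⟨s1, h1, f1, m1⟩ := ha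
    obtain ⟨s2, h2, f2, m2⟩ := hb
    exact ⟨s1 ∪ s2, Set.union_subset h1 h2, f1.union f2,
      add_mem (mono _ _ Set.subset_union_left m1) (mono _ _ Set.subset_union_right m2)⟩
  | neg a _ ha =>
    obtain ⟨s1, h1, f1, m1⟩ := ha
    exact ⟨s1, h1, f1, neg_mem m1⟩

theorem closure_conj_mem {G : Type} [Group G] (W : Subgroup G) (S : Set G)
    (hS : ∀ g ∈ S, (∀ x ∈ W, g * x * g⁻¹ ∈ W) ∧ ∀ x ∈ W, g⁻¹ * x * g⁻¹⁻¹ ∈ W) :
    ∀ g ∈ Subgroup.closure S, ∀ x ∈ W, g * x * g⁻¹ ∈ W := by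
  let K : Subgroup G :=
    { carrier := {g | (∀ x ∈ W, g * x * g⁻¹ ∈ W) ∧ ∀ x ∈ W, g⁻¹ * x * g⁻¹⁻¹ ∈ W}
      one_mem' := ⟨fun x hx => by simpa using hx, fun x hx => by simpa using hx⟩
      mul_mem' := by
        rintro a b ⟨ha, ha'⟩ ⟨hb, hb'⟩
        refine ⟨fun x hx => ?_, fun x hx => ?_⟩
        · have := ha _ (hb x hx)
          have e : a * b * x * (a * b)⁻¹ = a * (b * x * b⁻¹) * a⁻¹ := by group
          rwa [e]
        · have := hb' _ (ha' x hx)
          have e : (a * b)⁻¹ * x * (a * b)⁻¹⁻¹ = b⁻¹ * (a⁻¹ * x * a⁻¹⁻¹) * b⁻¹⁻¹ := by group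
          rwa [e]
      inv_mem' := by
        rintro a ⟨ha, ha'⟩
        exact ⟨ha', by simpa using ha⟩ }
  have hK : Subgroup.closure S ≤ K := (Subgroup.closure_le _).2 hS
  exact fun g hg => (hK hg).1

section
variable {L : Set (FreeGroup ℕ)} {Γ : Type} [Group Γ]

/-- The universal commutator lemma. -/
theorem univ_orbit (hL : HopfVar L) (hΓ : InVar L Γ) (hfg : Group.FG Γ) {N P : Subgroup Γ}
    (hN : PA N) [P.Normal] (hPN : P ≤ N) (hC : ∀ c ∈ ⁅P, N⁆, ∀ n ∈ N, c * n = n * c)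
    (n : Γ) (hn : n ∈ N) :
    ∃ F0 : Set Γ, F0.Finite ∧ ∀ a : Γ, (fun q : P => ⁅a * q * a⁻¹, n⁆) ∈ Subgroup.closure
      {x : P → Γ | ∃ f ∈ F0, ∃ k : Γ, x = fun q : P => k * ⁅f * q * f⁻¹, n⁆ * k⁻¹} := by
  have := hN.normal
  obtain ⟨Xs, hXs, hXfin⟩ := Group.fg_iff.1 hfg
  let cj : Γ → P → P := fun g q => ⟨g⁻¹ * q * g, by
    simpa using Normal.conj_mem inferInstance _ q.2 g⁻¹⟩
  let A : Γ → ((P → Γ) →* (P → Γ)) := fun g =>
    { toFun := fun x q => x (cj g q)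
      map_one' := rfl
      map_mul' := fun _ _ => rfl }
  have A1 : ∀ x, A 1 x = x := by
    intro x; funext q; show x _ = x q; congr 1; apply Subtype.ext; simp [cj]
  have Amul : ∀ g h x, A (g * h) x = A g (A h x) := by
    intro g h x; funext q; show x _ = x _; congr 1; apply Subtype.ext; simp [cj, mul_assoc]
  let δ : Γ →* (P → Γ) := Pi.constMonoidHom P Γ
  have hδ : ∀ k q, δ k q = k := fun _ _ => rfl
  let y : P → Γ := fun q => q
  let Gt : Subgroup (P → Γ) := Subgroup.closure (δ '' Xs ∪ {y})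
  have hδG : ∀ k, δ k ∈ Gt := by
    intro k
    have h1 : δ k ∈ (Subgroup.closure Xs).map δ := ⟨k, by rw [hXs]; trivial, rfl⟩
    rw [MonoidHom.map_closure] at h1
    exact Subgroup.closure_mono Set.subset_union_left h1
  have hyG : y ∈ Gt := Subgroup.subset_closure (Or.inr rfl)
  have Aδ : ∀ g k, A g (δ k) = δ k := fun _ _ => rfl
  have AG : ∀ g, ∀ x ∈ Gt, A g x ∈ Gt := by
    intro g
    have : Gt ≤ Gt.comap (A g) := by
      refine (Subgroup.closure_le _).2 ?_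
      rintro _ (⟨k, -, rfl⟩ | rfl)
      · exact hδG k
      · have e : A g y = (δ g)⁻¹ * y * δ g := rfl
        show A g y ∈ Gt
        rw [e]
        exact mul_mem (mul_mem (inv_mem (hδG g)) hyG) (hδG g)
    exact fun x hx => this hx
  have hGfg : Group.FG Gt := (Group.fg_iff_subgroup_fg _).2
    ((Subgroup.fg_iff _).2 ⟨_, rfl, (hXfin.image _).union (Set.finite_singleton _)⟩)
  have hGV : InVar L Gt := (InVar.pi fun _ : P => hΓ).subgroup Gt
  let Y : Set (P → Γ) := {x | x ∈ Gt ∧ ∀ q, x q ∈ ⁅P, N⁆}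
  let cl : Set (P → Γ) → Subgroup (P → Γ) := fun s =>
    Subgroup.closure {z | ∃ x ∈ s, ∃ k, z = δ k * x * (δ k)⁻¹}
  have cl_ext : ∀ s : Set (P → Γ), s ⊆ (cl s : Set (P → Γ)) := fun s x hx =>
    Subgroup.subset_closure ⟨x, hx, 1, by simp⟩
  have cl_conj : ∀ s k, ∀ z ∈ cl s, δ k * z * (δ k)⁻¹ ∈ cl s := by
    intro s k
    have : cl s ≤ (cl s).comap (MulAut.conj (δ k)).toMonoidHom := by
      refine (Subgroup.closure_le _).2 ?_
      rintro _ ⟨x, hx, k', rfl⟩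
      refine Subgroup.subset_closure ⟨x, hx, k * k', ?_⟩
      show δ k * _ * (δ k)⁻¹ = _
      rw [map_mul]; group
    exact fun z hz => this hz
  have cl_A : ∀ g s (W : Subgroup (P → Γ)), (∀ k, ∀ z ∈ W, δ k * z * (δ k)⁻¹ ∈ W) →
      (∀ x ∈ s, A g x ∈ W) → ∀ z ∈ cl s, A g z ∈ W := by
    intro g s W hW hs
    have : cl s ≤ W.comap (A g) := by
      refine (Subgroup.closure_le _).2 ?_
      rintro _ ⟨x, hx, k', rfl⟩
      show A g _ ∈ W
      rw [map_mul, map_mul, map_inv, Aδ]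
      exact hW _ _ (hs x hx)
    exact fun z hz => this hz
  let e : P → Γ := fun q => ⁅(q : Γ), n⁆
  have heY : e ∈ Y := by
    refine ⟨?_, fun q => commutator_mem_commutator q.2 hn⟩
    have : e = y * δ n * y⁻¹ * (δ n)⁻¹ := rfl
    rw [this]
    exact mul_mem (mul_mem (mul_mem hyG (hδG n)) (inv_mem hyG)) (inv_mem (hδG n))
  obtain ⟨F', hF', heF, horb, hall⟩ := orbit_fg (fun g x => A g x) A1 Amul
    (fun s => cl s) Y (fun g x hx => ⟨AG g x hx.1, fun q => hx.2 _⟩) cl_ext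
    (fun s t h => by
      refine (Subgroup.closure_le _).2 ?_
      rintro _ ⟨x, hx, k, rfl⟩
      exact cl_conj t k x (h hx))
    (fun s x hx => closure_fin (fun x z => ∃ k, z = δ k * x * (δ k)⁻¹) s x hx)
    (fun g s x hx => cl_A g s _ (cl_conj _)
      (fun x hx => cl_ext (A g '' s) (Set.mem_image_of_mem _ hx)) x hx)
    (by
      intro t s hsY hts x hx
      have hCn : ⁅P, N⁆.Normal := inferInstance
      have hWC : ∀ z ∈ cl s, ∀ q, z q ∈ ⁅P, N⁆ := by
        intro z hz q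
        have : cl s ≤ ⁅P, N⁆.comap (Pi.evalMonoidHom (fun _ : P => Γ) q) := by
          refine (Subgroup.closure_le _).2 ?_
          rintro _ ⟨x, hx, k', rfl⟩
          exact hCn.conj_mem _ ((hsY hx).2 q) k'
        exact this hz
      have hy : ∀ z ∈ cl s, y * z = z * y := by
        intro z hz
        funext q
        exact (hC _ (hWC z hz q) _ (hPN q.2)).symm
      have hnorm : ∀ g ∈ Gt, ∀ z ∈ cl s, g * z * g⁻¹ ∈ cl s := by
        refine closure_conj_mem _ _ ?_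
        rintro _ (⟨k, -, rfl⟩ | rfl)
        · exact ⟨cl_conj s k, by rw [← map_inv]; exact cl_conj s k⁻¹⟩
        · refine ⟨fun z hz => ?_, fun z hz => ?_⟩
          · rw [hy z hz]; simpa using hz
          · rw [inv_inv, mul_assoc, ← hy z hz]; simpa using hz
      have : ((cl s).subgroupOf Gt).Normal := ⟨fun z hz g => hnorm g g.2 z hz⟩
      let α : Gt →* Gt := ((A t).comp Gt.subtype).codRestrict Gt fun x => AG t x x.2
      have hα : Function.Surjective α := by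
        intro z
        refine ⟨⟨A t⁻¹ z, AG _ _ z.2⟩, Subtype.ext ?_⟩
        show A t (A t⁻¹ z) = z
        rw [← Amul, mul_inv_cancel, A1]
      refine hopf_normal hL hGV hGfg α hα ((cl s).subgroupOf Gt)
        (fun z hz => cl_A t s _ (cl_conj _) hts z hz) ⟨A t⁻¹ x, AG _ _ (hsY hx).1⟩ ?_
      show A t (A t⁻¹ x) ∈ cl s
      rw [← Amul, mul_inv_cancel, A1]
      exact cl_ext s hx)
    hN {e} (Set.finite_singleton e) (Set.singleton_subset_iff.2 heY) (by
      rintro g hg _ rfl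
      have : A g e = e := by
        funext q
        show ⁅g⁻¹ * q * g, n⁆ = ⁅(q : Γ), n⁆
        have hz : ⁅(q : Γ), g⁻¹⁆ ∈ ⁅P, N⁆ := commutator_mem_commutator q.2 (inv_mem hg)
        have e1 : g⁻¹ * q * g = ⁅(q : Γ), g⁻¹⁆⁻¹ * q := by
          rw [commutatorElement_def]; group
        rw [e1]
        generalize ⁅(q : Γ), g⁻¹⁆ = z at hz
        have h3 : z * ⁅(q : Γ), n⁆ = ⁅(q : Γ), n⁆ * z :=
          hC z hz _ (commutator_le_right _ _ (commutator_mem_commutator q.2 hn))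
        have h4 := hC z hz n hn
        calc ⁅z⁻¹ * q, n⁆ = z⁻¹ * ⁅(q : Γ), n⁆ * (n * z) * n⁻¹ := by
              simp only [commutatorElement_def]; group
          _ = z⁻¹ * (⁅(q : Γ), n⁆ * z) := by rw [← h4]; group
          _ = _ := by rw [← h3]; group
      show A g e ∈ cl {e}
      rw [this]
      exact cl_ext _ rfl)
  have horb' : ∀ z : F', ∃ g : Γ, (z : P → Γ) = A g e := by
    intro z
    obtain ⟨g, _, rfl, h⟩ := horb z z.2
    exact ⟨g, h⟩
  choose g hg using horb'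
  have := hF'.to_subtype
  refine ⟨Set.range fun z => (g z)⁻¹, Set.finite_range _, fun a => ?_⟩
  have h1 : A a⁻¹ e ∈ cl F' := hall a⁻¹ e (heF rfl)
  have h2 : A a⁻¹ e = fun q : P => ⁅a * q * a⁻¹, n⁆ := by
    funext q; show ⁅a⁻¹⁻¹ * q * a⁻¹, n⁆ = _; rw [inv_inv]
  rw [← h2]
  refine Subgroup.closure_mono ?_ h1
  rintro _ ⟨x, hx, k, rfl⟩
  refine ⟨(g ⟨x, hx⟩)⁻¹, ⟨_, rfl⟩, k, ?_⟩
  have h3 : x = A (g ⟨x, hx⟩) e := hg ⟨x, hx⟩
  funext q
  show k * x q * k⁻¹ = _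
  rw [inv_inv, congrFun h3 q]
  rfl

theorem comm_le_of_gen {P N W : Subgroup Γ} [W.Normal] (S T : Set Γ)
    (hP : P ≤ Subgroup.closure S) (hN : N ≤ Subgroup.closure T)
    (h : ∀ s ∈ S, ∀ t ∈ T, ⁅s, t⁆ ∈ W) : ⁅P, N⁆ ≤ W := by
  let π := QuotientGroup.mk' W
  have key : ∀ a b : Γ, ⁅a, b⁆ ∈ W ↔ Commute (π a) (π b) := by
    intro a b
    rw [← commutatorElement_eq_one_iff_commute, ← map_commutatorElement]
    exact (QuotientGroup.eq_one_iff _).symm
  rw [Subgroup.commutator_le]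
  intro p hp n hn
  rw [key]
  have hp' := hP hp
  have hn' := hN hn
  clear hp hn
  induction hp' using Subgroup.closure_induction with
  | mem s hs =>
    induction hn' using Subgroup.closure_induction with
    | mem t ht => exact (key _ _).1 (h s hs t ht)
    | one => simp
    | mul a b _ _ ha hb => rw [map_mul]; exact ha.mul_right hb
    | inv a _ ha => rw [map_inv]; exact ha.inv_right
  | one => simp
  | mul a b _ _ ha hb => rw [map_mul]; exact ha.mul_left hb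
  | inv a _ ha => rw [map_inv]; exact ha.inv_left

theorem comm_fg_bot (hL : HopfVar L) (hΓ : InVar L Γ) (hfg : Group.FG Γ) {N P : Subgroup Γ}
    (hN : PA N) [P.Normal] (hPN : P ≤ N) (hC : ∀ c ∈ ⁅P, N⁆, ∀ n ∈ N, c * n = n * c)
    (FP : Set Γ) (hFP : FP.Finite) (hFPP : FP ⊆ P) (hP : P ≤ ⁅P, N⁆ ⊔ normalClosure FP) :
    ∃ F : Set Γ, F.Finite ∧ F ⊆ (⁅P, N⁆ : Subgroup Γ) ∧ ⁅P, N⁆ ≤ normalClosure F := by
  obtain ⟨FN, hFN, hFNN, hNF⟩ := hN.normal_fg hfg
  choose! F0 hF0 hF0' using univ_orbit hL hΓ hfg hN hPN hC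
  let F : Set Γ := ⋃ n ∈ FN, (fun z : Γ × Γ => ⁅z.1 * z.2 * z.1⁻¹, n⁆) '' (F0 n ×ˢ FP)
  have hF : F.Finite := hFN.biUnion fun n hn => ((hF0 n (hFNN hn)).prod hFP).image _
  refine ⟨F, hF, ?_, ?_⟩
  · intro x hx
    simp only [F, Set.mem_iUnion] at hx
    obtain ⟨n, hn, z, hz, rfl⟩ := hx
    exact commutator_mem_commutator (Normal.conj_mem inferInstance _ (hFPP hz.2) _) (hFNN hn)
  · have h1 : ∀ n ∈ FN, ∀ p ∈ FP, ∀ a : Γ, ⁅a * p * a⁻¹, n⁆ ∈ normalClosure F := by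
      intro n hn p hp a
      have h2 := hF0' n (hFNN hn) a
      have h3 := (Subgroup.closure_le ((normalClosure F).comap
        (Pi.evalMonoidHom (fun _ : P => Γ) ⟨p, hFPP hp⟩))).2 (by
          rintro _ ⟨f, hf, k, rfl⟩
          refine Normal.conj_mem inferInstance _ (subset_normalClosure ?_) k
          simp only [F, Set.mem_iUnion]
          exact ⟨n, hn, (f, p), ⟨hf, hp⟩, rfl⟩) h2
      exact h3
    refine comm_le_of_gen ((⁅P, N⁆ : Subgroup Γ) ∪ Group.conjugatesOfSet FP)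
      (Group.conjugatesOfSet FN) ?_ hNF ?_
    · rw [Subgroup.closure_union, Subgroup.closure_eq]; exact hP
    · intro s hs t ht
      obtain ⟨n, hn, hnt⟩ := Group.mem_conjugatesOfSet_iff.1 ht
      obtain ⟨k, rfl⟩ := isConj_iff.1 hnt
      rcases hs with hs | hs
      · have := hN.normal
        have h4 := hC s hs _ (Normal.conj_mem inferInstance _ (hFNN hn) k)
        rw [commutatorElement_eq_one_iff_mul_comm.2 h4]
        exact one_mem _
      · obtain ⟨p, hp, hps⟩ := Group.mem_conjugatesOfSet_iff.1 hs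
        obtain ⟨a, rfl⟩ := isConj_iff.1 hps
        have e : ⁅a * p * a⁻¹, k * n * k⁻¹⁆ = k * ⁅(k⁻¹ * a) * p * (k⁻¹ * a)⁻¹, n⁆ * k⁻¹ := by
          simp only [commutatorElement_def]; group
        rw [e]
        exact Normal.conj_mem inferInstance _ (h1 n hn p hp _) k

theorem comm_fg (hL : HopfVar L) (hΓ : InVar L Γ) (hfg : Group.FG Γ) {N P : Subgroup Γ}
    (hN : PA N) [P.Normal] (hPN : P ≤ N)
    (FP : Set Γ) (hFP : FP.Finite) (hFPP : FP ⊆ P) (hP : P ≤ ⁅P, N⁆ ⊔ normalClosure FP) :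
    ∃ F : Set Γ, F.Finite ∧ F ⊆ (⁅P, N⁆ : Subgroup Γ) ∧
      ⁅P, N⁆ ≤ ⁅⁅P, N⁆, N⁆ ⊔ normalClosure F := by
  have := hN.normal
  let Q : Subgroup Γ := ⁅⁅P, N⁆, N⁆
  let π := QuotientGroup.mk' Q
  have hπ : Function.Surjective π := QuotientGroup.mk'_surjective Q
  have : (P.map π).Normal := Normal.map inferInstance π hπ
  obtain ⟨F', hF', hF'C, hCF'⟩ := comm_fg_bot hL (hΓ.quot Q) inferInstance (hN.map π hπ)
    (map_mono hPN : P.map π ≤ N.map π) (by
      rw [← Subgroup.map_commutator]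
      rintro _ ⟨c, hc, rfl⟩ _ ⟨n, hn, rfl⟩
      have : π ⁅c, n⁆ = 1 := (QuotientGroup.eq_one_iff _).2 (commutator_mem_commutator hc hn)
      rwa [map_commutatorElement, commutatorElement_eq_one_iff_mul_comm] at this)
    (π '' FP) (hFP.image _) (Set.image_mono hFPP) (by
      rw [← Subgroup.map_commutator, ← map_normalClosure _ _ hπ, ← Subgroup.map_sup]
      exact map_mono hP)
  rw [← Subgroup.map_commutator] at hF'C hCF'
  obtain ⟨F, hF, hFX, hFF⟩ := lift_fin π _ F' hF' hF'C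
  refine ⟨F, hF, hFX, le_sup_of_map_le Q ?_⟩
  rw [map_normalClosure _ _ hπ, hFF]
  exact hCF'

/-- lower central series of a subgroup. -/
def lcs (N : Subgroup Γ) : ℕ → Subgroup Γ
  | 0 => N
  | i + 1 => ⁅lcs N i, N⁆

instance lcs_normal (N : Subgroup Γ) [h : N.Normal] : ∀ i, (lcs N i).Normal
  | 0 => h
  | i + 1 => by
    have := lcs_normal N i
    exact (inferInstance : (⁅lcs N i, N⁆).Normal)

theorem lcs_le (N : Subgroup Γ) [N.Normal] : ∀ i, lcs N i ≤ N
  | 0 => le_rfl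
  | _ + 1 => commutator_le_right _ _

theorem lcs_mono {N N' : Subgroup Γ} (h : N ≤ N') : ∀ i, lcs N i ≤ lcs N' i
  | 0 => h
  | i + 1 => commutator_mono (lcs_mono h i) h

theorem lcs_map {Δ : Type} [Group Δ] (f : Γ →* Δ) (N : Subgroup Γ) :
    ∀ i, (lcs N i).map f = lcs (N.map f) i
  | 0 => rfl
  | i + 1 => by rw [lcs, lcs, Subgroup.map_commutator, lcs_map f N i]

/-- Nilpotent-by-polycyclic groups in a Hopf variety satisfy max-n. -/
theorem maxn_of_np (hL : HopfVar L) (hΓ : InVar L Γ) (hfg : Group.FG Γ) {N : Subgroup Γ}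
    (hN : PA N) (c : ℕ) (hc : lcs N c = ⊥) : NFG (⊥ : Subgroup Γ) ⊤ := by
  have := hN.normal
  have h1 : ∀ i, ∃ F : Set Γ, F.Finite ∧ F ⊆ lcs N i ∧
      lcs N i ≤ lcs N (i + 1) ⊔ normalClosure F := by
    intro i
    induction i with
    | zero =>
      obtain ⟨F, a, b, c⟩ := hN.normal_fg hfg
      exact ⟨F, a, b, c.trans le_sup_right⟩
    | succ i ih =>
      obtain ⟨F, a, b, c⟩ := ih
      exact comm_fg hL hΓ hfg hN (lcs_le N i) F a b c
  have h2 : ∀ i, NFG (lcs N i) ⊤ := by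
    intro i
    induction i with
    | zero => exact hN.nfg
    | succ i ih =>
      obtain ⟨F, a, b, c⟩ := h1 i
      exact NFG.trans (commutator_le_left _ _) le_top
        (nfg_factor hN (lcs_le N i) le_rfl F a b c) ih
  exact hc ▸ h2 c

end

end Pool.Agent.Lib.MP_ab1175_al
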